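import Pool.Agent.K6.H16.LC.E

/-!
Level crossings of stationary waves on lines, part F: general stationary waves.
-/

set_option autoImplicit false
open MeasureTheory Filter Topology Metric
open scoped ENNReal Nat ContDiff

namespace Pool.Agent.K6.H16.LC

open Pool.Agent.Y139.SW

variable {d : ℕ}

/-- the space of smooth solutions -/
abbrev Sol (d : ℕ) : Type := {f : E d → ℝ // ContDiff ℝ ∞ f ∧ ∀ y, Lap f y = -f y}

lemma D_tr (f : E d → ℝ) (x : E d) (i : Fin d) :
    D i (fun y => f (y + x)) = fun y => D i f (y + x) := by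
  funext y
  show fderiv ℝ (fun y => f (y + x)) y _ = fderiv ℝ f (y + x) _
  rw [fderiv_comp_add_right]

lemma Lap_tr (f : E d → ℝ) (x y : E d) : Lap (fun y => f (y + x)) y = Lap f (y + x) := by
  unfold Lap
  refine Finset.sum_congr rfl fun i _ => ?_
  rw [D_tr, D_tr]

/-- the shift -/
def shf (x : E d) (f : Sol d) : Sol d :=
  ⟨fun y => f.1 (y + x), f.2.1.comp (contDiff_id.add contDiff_const), fun y => by
    rw [Lap_tr]; exact f.2.2 _⟩

lemma shf_me (x : E d) : Measurable (shf x) := by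
  refine Measurable.subtype_mk (measurable_pi_iff.2 fun y => ?_)
  exact (measurable_pi_apply (y + x)).comp measurable_subtype_coe

variable {S : Type*} [MeasurableSpace S] {P : Measure S}

/-- transport to the canonical space -/
theorem canon [IsProbabilityMeasure P] {F : S → E d → ℝ} (mF : ∀ y, Measurable fun s => F s y)
    (sF : ∀ s, ContDiff ℝ ∞ (F s)) (eF : ∀ s y, Lap (F s) y + F s y = 0)
    (st : ∀ x : E d, P.map (fun s y => F s (y + x)) = P.map (fun s y => F s y))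
    (l2 : Integrable (fun s => F s 0 ^ 2) P) :
    ∃ Φ : S → Sol d, Measurable Φ ∧ (∀ s, (Φ s).1 = F s) ∧
      IsProbabilityMeasure (P.map Φ) ∧
      (∀ x : E d, MeasurePreserving (shf x) (P.map Φ) (P.map Φ)) ∧
      Wave (P.map Φ) shf (fun f : Sol d => f.1) := by
  obtain ⟨Φ, hΦ⟩ : ∃ Φ : S → Sol d, Φ = fun s => ⟨F s, sF s, fun y => by
    have := eF s y; linarith⟩ := ⟨_, rfl⟩
  have v1 : ∀ s, (Φ s).1 = F s := fun s => by rw [hΦ]
  have mΦ : Measurable Φ := by
    rw [hΦ]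
    exact Measurable.subtype_mk (measurable_pi_iff.2 mF)
  have hQ : IsProbabilityMeasure (P.map Φ) := Measure.isProbabilityMeasure_map mΦ.aemeasurable
  have hτ : ∀ x : E d, MeasurePreserving (shf x) (P.map Φ) (P.map Φ) := by
    intro x
    refine ⟨shf_me x, ?_⟩
    rw [Measure.map_map (shf_me x) mΦ]
    ext A mA
    obtain ⟨B, mB, rfl⟩ := mA
    have e1 : ((shf x ∘ Φ) ⁻¹' (Subtype.val ⁻¹' B)) = (fun s y => F s (y + x)) ⁻¹' B := by
      ext s
      show (fun y => (Φ s).1 (y + x)) ∈ B ↔ (fun y => F s (y + x)) ∈ B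
      rw [v1]
    have e2 : (Φ ⁻¹' (Subtype.val ⁻¹' B)) = (fun s y => F s y) ⁻¹' B := by
      ext s
      show (Φ s).1 ∈ B ↔ (fun y => F s y) ∈ B
      rw [v1]
    have mV : MeasurableSet (Subtype.val ⁻¹' B : Set (Sol d)) := ⟨B, mB, rfl⟩
    rw [Measure.map_apply ((shf_me x).comp mΦ) mV, Measure.map_apply mΦ mV, e1, e2,
      ← Measure.map_apply (measurable_pi_iff.2 fun y => mF (y + x)) mB,
      ← Measure.map_apply (measurable_pi_iff.2 fun y => mF y) mB, st x]
  have W : Wave (P.map Φ) shf (fun f : Sol d => f.1) := by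
    refine ⟨⟨fun y => (measurable_pi_apply y).comp measurable_subtype_coe, fun f => f.2.1,
      fun x f y => rfl⟩, fun f y => f.2.2 y, ?_⟩
    have m0 : Measurable fun f : Sol d => f.1 0 :=
      (measurable_pi_apply 0).comp measurable_subtype_coe
    refine (integrable_map_measure (m0.pow_const 2).aestronglyMeasurable mΦ.aemeasurable).2 ?_
    refine l2.congr (ae_of_all _ fun s => ?_)
    show F s 0 ^ 2 = (Φ s).1 0 ^ 2
    rw [v1]
  exact ⟨Φ, mΦ, v1, hQ, hτ, W⟩

/-- a wave which takes the value `c` at a given point with positive probability vanishes there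
identically -/
theorem point_wave {T : Type*} [MeasurableSpace T] {Q : Measure T} {τ : E d → T → T}
    [IsProbabilityMeasure Q] (hτ : ∀ x, MeasurePreserving (τ x) Q Q)
    {G : T → E d → ℝ} (W : Wave Q τ G) (p : E d) (c : ℝ) :
    ∀ᵐ s ∂Q, G s p = c → ∀ y, G s y = 0 := by
  have one : ∀ v : E d, ∀ᵐ s ∂Q, G s p = c → G s (p + v) = c := by
    intro v
    rcases eq_or_ne v 0 with rfl | hv
    · exact ae_of_all _ fun s h => by simpa using h
    have v0 : 0 < ‖v‖ := norm_pos_iff.2 hv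
    obtain ⟨e, he⟩ : ∃ e, e = ‖v‖⁻¹ • v := ⟨_, rfl⟩
    have e1 : ‖e‖ = 1 := by
      rw [he, norm_smul, norm_inv, norm_norm, inv_mul_cancel₀ v0.ne']
    have ve : v = ‖v‖ • e := by
      rw [he, smul_smul, mul_inv_cancel₀ v0.ne', one_smul]
    obtain ⟨g, hg⟩ : ∃ g : ℕ → T → ℝ → ℝ, g = fun k s t => It e k (G s) (p + t • e) := ⟨_, rfl⟩
    obtain ⟨U, hU⟩ : ∃ U : ℝ → T → T, U = fun x => τ (x • e) := ⟨_, rfl⟩
    have H : Chain Q U g (1 + ∫ s, G s 0 ^ 2 ∂Q) := by
      rw [hg, hU]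
      exact chain hτ W e1 p
    have g0 : ∀ s t, g 0 s t = G s (p + t • e) := fun s t => by rw [hg]; rfl
    have iB : ∀ x : ℝ, U x ⁻¹' {s | ∃ t, g 0 s t ≠ c} = {s | ∃ t, g 0 s t ≠ c} := by
      intro x
      ext s
      simp only [Set.mem_preimage, Set.mem_ofPred_eq, H.cov]
      constructor
      · rintro ⟨t, h⟩
        exact ⟨_, h⟩
      · rintro ⟨t, h⟩
        exact ⟨t - x, by rw [sub_add_cancel]; exact h⟩
    have z := H.point (meas_ne (H.meas 0) (H.cont 0) c) iB (c := c) (fun s hs => hs)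
    have z2 := measure_eq_zero_iff_ae_notMem.1 z
    filter_upwards [z2] with s hs h
    by_contra hc
    refine hs ⟨⟨‖v‖, ?_⟩, ?_⟩
    · rw [g0, ← ve]; exact hc
    · show g 0 s 0 = c
      rw [g0, zero_smul, add_zero]; exact h
  have all := ae_all_iff.2 fun n : ℕ => one (TopologicalSpace.denseSeq (E d) n)
  filter_upwards [all] with s hs h y
  have cG : Continuous fun v : E d => G s (p + v) :=
    (W.sf.smooth s).continuous.comp (by fun_prop)
  have eq := (TopologicalSpace.denseRange_denseSeq (E d)).equalizer cG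
    (continuous_const (y := c)) (funext fun n => hs n h)
  have gc : G s = fun _ => c := by
    funext z
    have := congrFun eq (z - p)
    simpa using this
  have := W.eq s y
  rw [gc] at this
  have l0 : Lap (fun _ : E d => c) y = 0 := by
    unfold Lap D
    simp
  rw [l0] at this
  rw [gc]
  show c = 0
  linarith

/-- the theorem for general stationary waves -/
theorem fin [IsProbabilityMeasure P] {F : S → E d → ℝ} (mF : ∀ y, Measurable fun s => F s y)
    (sF : ∀ s, ContDiff ℝ ∞ (F s)) (eF : ∀ s y, Lap (F s) y + F s y = 0)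
    (st : ∀ x : E d, P.map (fun s y => F s (y + x)) = P.map (fun s y => F s y))
    (l2 : Integrable (fun s => F s 0 ^ 2) P) (p v : E d) (c : ℝ) :
    Measurable (num (fun s (t : ℝ) => F s (p + t • v)) c) ∧
    ∫⁻ s in {s | ∃ t : ℝ, F s (p + t • v) ≠ c}, num (fun s (t : ℝ) => F s (p + t • v)) c s ∂P ≤
      ENNReal.ofReal (‖v‖ / Real.pi) *
        P {s | (∃ t : ℝ, F s (p + t • v) = c) ∧ ∃ t : ℝ, F s (p + t • v) ≠ c} := by
  obtain ⟨Φ, mΦ, v1, hQ, hτ, W⟩ := canon mF sF eF st l2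
  obtain ⟨h1, h2⟩ := main hτ W p v c
  have mf : ∀ y, Measurable fun s => (fun (s : S) (t : ℝ) => F s (p + t • v)) s y :=
    fun y => mF _
  have cf : ∀ s, Continuous ((fun (s : S) (t : ℝ) => F s (p + t • v)) s) := fun s =>
    (sF s).continuous.comp (by fun_prop)
  have mf' : ∀ y, Measurable fun f : Sol d => (fun (f : Sol d) (t : ℝ) => f.1 (p + t • v)) f y :=
    fun y => W.sf.meas _
  have cf' : ∀ f, Continuous ((fun (f : Sol d) (t : ℝ) => f.1 (p + t • v)) f) := fun f =>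
    f.2.1.continuous.comp (by fun_prop)
  refine ⟨num_meas mf cf c, ?_⟩
  have mE : MeasurableSet {f : Sol d | (∃ t : ℝ, f.1 (p + t • v) = c) ∧
      ∃ t : ℝ, f.1 (p + t • v) ≠ c} := (meas_ex mf' cf' c).inter (meas_ne mf' cf' c)
  rw [setLIntegral_map (meas_ne mf' cf' c) h1 mΦ, Measure.map_apply mΦ mE] at h2
  have e1 : Φ ⁻¹' {f : Sol d | ∃ t : ℝ, f.1 (p + t • v) ≠ c} =
      {s | ∃ t : ℝ, F s (p + t • v) ≠ c} := by
    ext s
    simp only [Set.mem_preimage, Set.mem_ofPred_eq, v1]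
  have e2 : Φ ⁻¹' {f : Sol d | (∃ t : ℝ, f.1 (p + t • v) = c) ∧ ∃ t : ℝ, f.1 (p + t • v) ≠ c} =
      {s | (∃ t : ℝ, F s (p + t • v) = c) ∧ ∃ t : ℝ, F s (p + t • v) ≠ c} := by
    ext s
    simp only [Set.mem_preimage, Set.mem_ofPred_eq, v1]
  have e3 : ∀ s, num (fun (f : Sol d) (t : ℝ) => f.1 (p + t • v)) c (Φ s) =
      num (fun s (t : ℝ) => F s (p + t • v)) c s := by
    intro s
    unfold num
    simp only [v1]
  have e1' := e1
  simp only [e3] at h2
  calc _ ≤ _ := le_of_eq (by rw [← e1])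
    _ ≤ _ := h2
    _ = _ := by rw [← e2]

/-- final form -/
theorem fin' [IsProbabilityMeasure P] {F : S → E d → ℝ} (mF : ∀ y, Measurable fun s => F s y)
    (sF : ∀ s, ContDiff ℝ ∞ (F s)) (eF : ∀ s y, Lap (F s) y + F s y = 0)
    (st : ∀ x : E d, P.map (fun s y => F s (y + x)) = P.map (fun s y => F s y))
    (l2 : Integrable (fun s => F s 0 ^ 2) P) (p v : E d) (c : ℝ) :
    Measurable (num (fun s (t : ℝ) => F s (p + t • v)) c) ∧
    ∫⁻ s in {s | ∃ y, F s y ≠ 0}, num (fun s (t : ℝ) => F s (p + t • v)) c s ∂P ≤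
      ENNReal.ofReal (‖v‖ / Real.pi) *
        P {s | (∃ y, F s y ≠ 0) ∧ ∃ t : ℝ, F s (p + t • v) = c} := by
  obtain ⟨Φ, mΦ, v1, hQ, hτ, W⟩ := canon mF sF eF st l2
  have z := ae_of_ae_map mΦ.aemeasurable (point_wave hτ W p c)
  obtain ⟨h1, h2⟩ := fin mF sF eF st l2 p v c
  refine ⟨h1, le_trans (lintegral_mono' (Measure.restrict_mono' ?_ le_rfl) le_rfl)
    (h2.trans ?_)⟩
  · filter_upwards [z] with s hs h
    obtain ⟨y, hy⟩ := h
    refine ⟨0, ?_⟩
    rw [zero_smul, add_zero]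
    intro hc
    rw [v1] at hs
    exact hy (hs hc y)
  · refine mul_le_mul' le_rfl (measure_mono ?_)
    rintro s ⟨⟨t, ht⟩, ⟨u, hu⟩⟩
    refine ⟨?_, t, ht⟩
    by_contra hn
    push Not at hn
    rw [hn] at ht hu
    exact hu ht

end Pool.Agent.K6.H16.LC
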