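import Mathlib

/-!
Level crossings of stationary waves on lines, part A: Jensen inequality and circle averages.
-/

set_option autoImplicit false
open MeasureTheory Filter Topology Metric Real

namespace Pool.Agent.K6.H16.LC

/-- Jensen inequality for finitely many real zeros -/
theorem jensen {Φ : ℂ → ℂ} (hΦ : Differentiable ℂ Φ) {R : ℝ} (hR : 0 < R) (h0 : Φ 0 ≠ 0)
    (T : Finset ℝ) (hT : ∀ t ∈ T, |t| ≤ R ∧ Φ t = 0) :
    ∑ t ∈ T, Real.log (R / |t|) ≤ circleAverage (fun z => Real.log ‖Φ z‖) 0 R -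
      Real.log ‖Φ 0‖ := by
  have an : AnalyticOnNhd ℂ Φ (closedBall 0 |R|) := fun z _ => hΦ.analyticAt z
  have J := an.circleAverage_log_norm hR.ne' h0
  rw [J, add_sub_cancel_right]
  obtain ⟨D, hD⟩ : ∃ D, D = MeromorphicOn.divisor Φ (closedBall 0 |R|) := ⟨_, rfl⟩
  rw [← hD]
  have fin : D.support.Finite := D.finiteSupport (isCompact_closedBall _ _)
  have ordne : ∀ z, analyticOrderAt Φ z ≠ ⊤ := by
    intro z hz
    rw [analyticOrderAt_eq_top] at hz
    have := AnalyticOnNhd.eqOn_zero_of_preconnected_of_eventuallyEq_zero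
      (fun z _ => hΦ.analyticAt z : AnalyticOnNhd ℂ Φ Set.univ) isPreconnected_univ
      (Set.mem_univ z) hz
    exact h0 (this (Set.mem_univ 0))
  have dv : ∀ z ∈ closedBall (0 : ℂ) |R|, ∃ n : ℕ, analyticOrderAt Φ z = n ∧ D z = n := by
    intro z hz
    obtain ⟨n, hn⟩ := ENat.ne_top_iff_exists.1 (ordne z)
    refine ⟨n, hn.symm, ?_⟩
    rw [hD, MeromorphicOn.AnalyticOnNhd.divisor_apply an hz, ← hn]
    rfl
  have Dn : ∀ z, 0 ≤ D z := by
    intro z
    by_cases hz : z ∈ closedBall (0 : ℂ) |R|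
    · obtain ⟨n, _, h2⟩ := dv z hz
      rw [h2]; positivity
    · exact (D.apply_eq_zero_of_notMem hz).ge
  have term : ∀ z, 0 ≤ (D z : ℝ) * Real.log (R * ‖0 - z‖⁻¹) := by
    intro z
    by_cases hz : z ∈ closedBall (0 : ℂ) |R|
    · refine mul_nonneg (by exact_mod_cast Dn z) ?_
      rcases eq_or_ne z 0 with rfl | hz0
      · simp
      · refine Real.log_nonneg ?_
        have : 0 < ‖0 - z‖ := by simpa using hz0
        rw [← div_eq_mul_inv, one_le_div this]
        simpa [abs_of_pos hR] using hz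
    · rw [D.apply_eq_zero_of_notMem hz]; simp
  have sub : (fun z => (D z : ℝ) * Real.log (R * ‖0 - z‖⁻¹)).support ⊆
      (fin.toFinset ∪ T.image (fun t : ℝ => (t : ℂ)) : Finset ℂ) := by
    intro z hz
    simp only [Function.mem_support] at hz
    rw [Finset.coe_union]
    left
    simp only [Set.Finite.coe_toFinset, Function.mem_support]
    intro h
    exact hz (by rw [h]; simp)
  rw [finsum_eq_sum_of_support_subset _ sub]
  have inj : Set.InjOn (fun t : ℝ => (t : ℂ)) T := fun a _ b _ h => Complex.ofReal_injective h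
  calc ∑ t ∈ T, Real.log (R / |t|) ≤ ∑ z ∈ T.image (fun t : ℝ => (t : ℂ)),
        (D z : ℝ) * Real.log (R * ‖0 - z‖⁻¹) := by
        rw [Finset.sum_image inj]
        refine Finset.sum_le_sum fun t ht => ?_
        obtain ⟨h1, h2⟩ := hT t ht
        have t0 : t ≠ 0 := by
          rintro rfl
          exact h0 (by simpa using h2)
        have hb : (t : ℂ) ∈ closedBall (0 : ℂ) |R| := by
          simpa [abs_of_pos hR] using h1
        have e : R * ‖0 - (t : ℂ)‖⁻¹ = R / |t| := by
          simp [div_eq_mul_inv]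
        have l0 : 0 ≤ Real.log (R / |t|) :=
          Real.log_nonneg (by rwa [one_le_div (abs_pos.2 t0)])
        have d1 : (1 : ℝ) ≤ (D t : ℝ) := by
          have : 1 ≤ D t := by
            obtain ⟨n, h4, h5⟩ := dv t hb
            rw [h5]
            have h3 : analyticOrderAt Φ t ≠ 0 := by
              rw [Ne, (hΦ.analyticAt _).analyticOrderAt_eq_zero]
              simpa using h2
            rw [h4] at h3
            have : 1 ≤ n := Nat.one_le_iff_ne_zero.2 (by exact_mod_cast h3)
            exact_mod_cast this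
          exact_mod_cast this
        rw [e]
        nlinarith
    _ ≤ _ := Finset.sum_le_sum_of_subset_of_nonneg Finset.subset_union_right
        fun z _ _ => term z

lemma log_le {x a : ℝ} (hx : 0 ≤ x) (ha : 0 ≤ a) : Real.log x ≤ a + x * Real.exp (-a) := by
  rcases hx.eq_or_lt with rfl | hx
  · simpa using ha
  · have h := Real.log_le_sub_one_of_pos (mul_pos hx (Real.exp_pos (-a)))
    rw [Real.log_mul hx.ne' (Real.exp_pos _).ne', Real.log_exp] at h
    linarith

lemma int_abs_sin : ∫ θ in (0 : ℝ)..2 * π, |Real.sin θ| = 4 := by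
  have c : Continuous fun θ : ℝ => |Real.sin θ| := by fun_prop
  rw [← intervalIntegral.integral_add_adjacent_intervals (b := π)
    (c.intervalIntegrable _ _) (c.intervalIntegrable _ _)]
  have h1 : ∫ θ in (0 : ℝ)..π, |Real.sin θ| = ∫ θ in (0 : ℝ)..π, Real.sin θ := by
    refine intervalIntegral.integral_congr fun θ hθ => ?_
    rw [Set.uIcc_of_le pi_pos.le] at hθ
    exact abs_of_nonneg (Real.sin_nonneg_of_mem_Icc hθ)
  have h2 : ∫ θ in (π : ℝ)..2 * π, |Real.sin θ| = ∫ θ in (π : ℝ)..2 * π, -Real.sin θ := by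
    refine intervalIntegral.integral_congr fun θ hθ => ?_
    rw [Set.uIcc_of_le (by linarith [pi_pos])] at hθ
    have : 0 ≤ Real.sin (θ - π) :=
      Real.sin_nonneg_of_mem_Icc ⟨by linarith [hθ.1], by linarith [hθ.2]⟩
    rw [Real.sin_sub_pi] at this
    exact abs_of_nonpos (by linarith)
  rw [h1, h2, intervalIntegral.integral_neg]
  simp only [integral_sin, Real.cos_zero, Real.cos_pi, Real.cos_two_pi]
  norm_num

/-- the circle average of `log ‖Φ - c‖` for functions of exponential type -/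
theorem circ {Φ : ℂ → ℂ} (hΦ : Differentiable ℂ Φ) {R : ℝ} (hR : 0 < R) (c : ℝ) :
    circleAverage (fun z => Real.log ‖Φ z - c‖) 0 R ≤ 2 * R / π + |c| +
      (2 * π)⁻¹ * ∫ θ in (0 : ℝ)..2 * π, ‖Φ (circleMap 0 R θ)‖ * Real.exp (-(R * |Real.sin θ|)) := by
  have dc : Differentiable ℂ fun z => Φ z - c := hΦ.sub_const _
  have i1 : CircleIntegrable (fun z => Real.log ‖Φ z - c‖) 0 R := by
    refine MeromorphicOn.circleIntegrable_log_norm (fun z _ => ?_)
    exact (dc.analyticAt z).meromorphicAt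
  have i1' := i1
  unfold CircleIntegrable at i1'
  have im : ∀ θ : ℝ, |(circleMap 0 R θ).im| = R * |Real.sin θ| := by
    intro θ
    simp [circleMap, Complex.exp_ofReal_mul_I_im, abs_mul, abs_of_pos hR]
  have key : ∫ θ in (0 : ℝ)..2 * π, Real.log ‖Φ (circleMap 0 R θ) - c‖ ≤
      ∫ θ in (0 : ℝ)..2 * π, ((R * |Real.sin θ| + |c|) +
        ‖Φ (circleMap 0 R θ)‖ * Real.exp (-(R * |Real.sin θ|))) := by
    have cΦ : Continuous fun θ : ℝ => Φ (circleMap 0 R θ) :=
      hΦ.continuous.comp (continuous_circleMap 0 R)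
    have cE : Continuous fun θ : ℝ => Real.exp (-(R * |Real.sin θ|)) := by fun_prop
    have cS : Continuous fun θ : ℝ => R * |Real.sin θ| + |c| := by fun_prop
    have c2 : Continuous fun θ : ℝ => ((R * |Real.sin θ| + |c|) +
        ‖Φ (circleMap 0 R θ)‖ * Real.exp (-(R * |Real.sin θ|))) := cS.add (cΦ.norm.mul cE)
    refine intervalIntegral.integral_mono_on (by positivity) i1' (c2.intervalIntegrable _ _) ?_
    intro θ _
    have a0 : 0 ≤ R * |Real.sin θ| := by positivity
    have h := log_le (norm_nonneg (Φ (circleMap 0 R θ) - c)) a0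
    have e1 : Real.exp (-(R * |Real.sin θ|)) ≤ 1 := Real.exp_le_one_iff.2 (by linarith)
    have e0 := Real.exp_pos (-(R * |Real.sin θ|))
    have n1 : ‖Φ (circleMap 0 R θ) - c‖ ≤ ‖Φ (circleMap 0 R θ)‖ + |c| := by
      refine (norm_sub_le _ _).trans ?_
      simp
    have n2 : ‖Φ (circleMap 0 R θ) - c‖ * Real.exp (-(R * |Real.sin θ|)) ≤
        (‖Φ (circleMap 0 R θ)‖ + |c|) * Real.exp (-(R * |Real.sin θ|)) :=
      mul_le_mul_of_nonneg_right n1 e0.le
    have n3 : |c| * Real.exp (-(R * |Real.sin θ|)) ≤ |c| := by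
      nlinarith [abs_nonneg c]
    nlinarith
  have split : ∫ θ in (0 : ℝ)..2 * π, ((R * |Real.sin θ| + |c|) +
        ‖Φ (circleMap 0 R θ)‖ * Real.exp (-(R * |Real.sin θ|))) = (R * 4 + 2 * π * |c|) +
        ∫ θ in (0 : ℝ)..2 * π, ‖Φ (circleMap 0 R θ)‖ * Real.exp (-(R * |Real.sin θ|)) := by
    have cΦ : Continuous fun θ : ℝ => Φ (circleMap 0 R θ) :=
      hΦ.continuous.comp (continuous_circleMap 0 R)
    have c1 : Continuous fun θ : ℝ => R * |Real.sin θ| := by fun_prop
    have c3 : Continuous fun θ : ℝ => R * |Real.sin θ| + |c| := by fun_prop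
    have cE : Continuous fun θ : ℝ => Real.exp (-(R * |Real.sin θ|)) := by fun_prop
    have c2 : Continuous fun θ : ℝ =>
        ‖Φ (circleMap 0 R θ)‖ * Real.exp (-(R * |Real.sin θ|)) := cΦ.norm.mul cE
    rw [intervalIntegral.integral_add (c3.intervalIntegrable _ _) (c2.intervalIntegrable _ _),
      intervalIntegral.integral_add (c1.intervalIntegrable _ _)
      (continuous_const.intervalIntegrable _ _), intervalIntegral.integral_const_mul, int_abs_sin]
    simp
  rw [split] at key
  unfold circleAverage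
  simp only [smul_eq_mul]
  have p0 : (0 : ℝ) < (2 * π)⁻¹ := by positivity
  have := mul_le_mul_of_nonneg_left key p0.le
  refine this.trans (le_of_eq ?_)
  have := pi_pos.ne'
  rw [mul_add]
  congr 1
  field_simp
  ring

end Pool.Agent.K6.H16.LC
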