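import Pool.Agent.K6.H16.LC.A

/-!
Level crossings of stationary waves on lines, part B: entire extension of the sample paths.
-/

set_option autoImplicit false
open MeasureTheory Filter Topology Metric
open scoped ENNReal Nat

namespace Pool.Agent.K6.H16.LC

variable {S : Type*} [MeasurableSpace S]

/-- a smooth stationary process on the line, `g k` its `k`-th derivative, with all first absolute
moments at most `σ` -/
structure Chain (P : Measure S) (τ : ℝ → S → S) (g : ℕ → S → ℝ → ℝ) (σ : ℝ) : Prop where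
  pos : 0 ≤ σ
  mp : ∀ x, MeasurePreserving (τ x) P P
  meas : ∀ k y, Measurable fun s => g k s y
  der : ∀ k s y, HasDerivAt (g k s) (g (k + 1) s y) y
  cov : ∀ k x s y, g k (τ x s) y = g k s (y + x)
  bd : ∀ k, ∫⁻ s, ‖g k s 0‖ₑ ∂P ≤ ENNReal.ofReal σ

variable {P : Measure S} {τ : ℝ → S → S} {g : ℕ → S → ℝ → ℝ} {σ : ℝ}

lemma Chain.cont (H : Chain P τ g σ) (k : ℕ) (s : S) : Continuous (g k s) :=
  continuous_iff_continuousAt.2 fun y => (H.der k s y).continuousAt

lemma Chain.jm (H : Chain P τ g σ) (k : ℕ) : Measurable fun p : ℝ × S => g k p.2 p.1 :=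
  measurable_uncurry_of_continuous_of_measurable (u := fun y s => g k s y)
    (fun s => H.cont k s) (H.meas k)

lemma Chain.bdy (H : Chain P τ g σ) (k : ℕ) (y : ℝ) : ∫⁻ s, ‖g k s y‖ₑ ∂P ≤ ENNReal.ofReal σ := by
  have e : ∀ s, g k s y = g k (τ y s) 0 := fun s => by rw [H.cov, zero_add]
  simp only [e]
  rw [(H.mp y).lintegral_comp (f := fun s => ‖g k s 0‖ₑ) (H.meas k 0).enorm]
  exact H.bd k

lemma exp_tsum {r : ℝ} (hr : 0 ≤ r) :
    ∑' k : ℕ, ENNReal.ofReal (r ^ k / k !) = ENNReal.ofReal (Real.exp r) := by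
  rw [Real.exp_eq_exp_ℝ, NormedSpace.exp_eq_tsum_div]
  exact (ENNReal.ofReal_tsum_of_nonneg (fun k => by positivity)
    (Real.summable_pow_div_factorial r)).symm

lemma Chain.rem [SFinite P] (H : Chain P τ g σ) (n : ℕ) : ∀ (j : ℕ) (y : ℝ),
    ∫⁻ s, ‖g j s y - ∑ k ∈ Finset.range n, g (j + k) s 0 * (y ^ k / k !)‖ₑ ∂P ≤
      ENNReal.ofReal (σ * (|y| ^ n / n !)) := by
  induction n with
  | zero =>
    intro j y
    simpa using H.bdy j y
  | succ n ih =>
    intro j y
    have ftc : ∀ s, g j s y - ∑ k ∈ Finset.range (n + 1), g (j + k) s 0 * (y ^ k / k !) =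
        ∫ u in (0 : ℝ)..y, (g (j + 1) s u -
          ∑ k ∈ Finset.range n, g (j + 1 + k) s 0 * (u ^ k / k !)) := by
      intro s
      have hd : ∀ u : ℝ, HasDerivAt (fun u => g j s u -
          ∑ k ∈ Finset.range (n + 1), g (j + k) s 0 * (u ^ k / k !))
          (g (j + 1) s u - ∑ k ∈ Finset.range n, g (j + 1 + k) s 0 * (u ^ k / k !)) u := by
        intro u
        simp only [Finset.sum_range_succ']
        refine (H.der j s u).sub ?_
        have h1 : HasDerivAt (fun u : ℝ => ∑ k ∈ Finset.range n,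
            g (j + (k + 1)) s 0 * (u ^ (k + 1) / (k + 1)!))
            (∑ k ∈ Finset.range n, g (j + 1 + k) s 0 * (u ^ k / k !)) u := by
          refine HasDerivAt.fun_sum fun k _ => ?_
          have e1 : j + (k + 1) = j + 1 + k := by ring
          rw [e1]
          refine HasDerivAt.const_mul _ ?_
          have h2 := (hasDerivAt_pow (k + 1) u).div_const ((k + 1)! : ℝ)
          convert h2 using 1
          rw [Nat.factorial_succ]
          have : (k ! : ℝ) ≠ 0 := by positivity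
          push_cast
          have h3 : (k : ℝ) + 1 ≠ 0 := by positivity
          field_simp
        have h2 := h1.add_const (g (j + 0) s 0 * (u ^ 0 / 0 !))
        simpa using h2
      have cr : Continuous fun u => g (j + 1) s u -
          ∑ k ∈ Finset.range n, g (j + 1 + k) s 0 * (u ^ k / k !) := by
        refine (H.cont _ s).sub (continuous_finsetSum _ fun k _ => ?_)
        fun_prop
      rw [intervalIntegral.integral_eq_sub_of_hasDerivAt (fun u _ => hd u)
        (cr.intervalIntegrable _ _)]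
      have z : ∑ k ∈ Finset.range (n + 1), g (j + k) s 0 * ((0 : ℝ) ^ k / k !) = g j s 0 := by
        rw [Finset.sum_range_succ']
        simp
      rw [z]
      ring
    have mr : Measurable fun p : S × ℝ => g (j + 1) p.1 p.2 -
          ∑ k ∈ Finset.range n, g (j + 1 + k) p.1 0 * (p.2 ^ k / k !) := by
      refine ((H.jm (j + 1)).comp measurable_swap).sub ?_
      refine Finset.measurable_fun_sum _ fun k _ => ?_
      exact ((H.meas _ 0).comp measurable_fst).mul ((measurable_snd.pow_const k).div_const _)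
    calc ∫⁻ s, ‖g j s y - ∑ k ∈ Finset.range (n + 1), g (j + k) s 0 * (y ^ k / k !)‖ₑ ∂P
        ≤ ∫⁻ s, (∫⁻ u in Set.uIoc 0 y, ‖g (j + 1) s u -
          ∑ k ∈ Finset.range n, g (j + 1 + k) s 0 * (u ^ k / k !)‖ₑ) ∂P := by
          refine lintegral_mono fun s => ?_
          rw [ftc s, intervalIntegral.intervalIntegral_eq_integral_uIoc]
          refine le_trans (le_of_eq ?_) (enorm_integral_le_lintegral_enorm _)
          rw [enorm_smul]
          split_ifs <;> simp
      _ = ∫⁻ u in Set.uIoc 0 y, ∫⁻ s, ‖g (j + 1) s u -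
          ∑ k ∈ Finset.range n, g (j + 1 + k) s 0 * (u ^ k / k !)‖ₑ ∂P := by
          exact lintegral_lintegral_swap mr.enorm.aemeasurable
      _ ≤ ∫⁻ u in Set.uIoc 0 y, ENNReal.ofReal (σ * (|u| ^ n / n !)) :=
          lintegral_mono fun u => ih (j + 1) u
      _ = ENNReal.ofReal (∫ u in Set.uIoc 0 y, σ * (|u| ^ n / n !)) := by
          refine (ofReal_integral_eq_lintegral_ofReal ?_ (ae_of_all _ fun u => ?_)).symm
          · have c : Continuous fun u : ℝ => σ * (|u| ^ n / n !) := by fun_prop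
            exact (c.integrableOn_uIcc).mono_set Set.uIoc_subset_uIcc
          · exact mul_nonneg H.pos (by positivity)
      _ = ENNReal.ofReal (σ * (|y| ^ (n + 1) / (n + 1)!)) := by
          congr 1
          have h := @integral_pow_abs_sub_uIoc 0 y n
          simp only [sub_zero] at h
          have e : (fun u : ℝ => σ * (|u| ^ n / n !)) = fun u => (σ / n !) * |u| ^ n := by
            funext u; ring
          rw [e, integral_const_mul, h, Nat.factorial_succ]
          have : (n ! : ℝ) ≠ 0 := by positivity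
          have h3 : (n : ℝ) + 1 ≠ 0 := by positivity
          push_cast
          field_simp

/-- almost all paths are restrictions of entire functions -/
theorem Chain.good [SFinite P] (H : Chain P τ g σ) : ∀ᵐ s ∂P, ∃ Φ : ℂ → ℂ, Differentiable ℂ Φ ∧
    ∀ x : ℝ, Φ x = g 0 s x := by
  have a1 : ∀ᵐ s ∂P, ∀ r : ℕ, ∑' k : ℕ, ‖g k s 0‖ₑ * ENNReal.ofReal ((r : ℝ) ^ k / k !) ≠ ⊤ := by
    refine ae_all_iff.2 fun r => ?_
    have m : ∀ k : ℕ, Measurable fun s => ‖g k s 0‖ₑ * ENNReal.ofReal ((r : ℝ) ^ k / k !) :=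
      fun k => (H.meas k 0).enorm.mul_const _
    have h : ∫⁻ s, ∑' k : ℕ, ‖g k s 0‖ₑ * ENNReal.ofReal ((r : ℝ) ^ k / k !) ∂P ≠ ⊤ := by
      rw [lintegral_tsum fun k => (m k).aemeasurable]
      refine ne_top_of_le_ne_top (b := ENNReal.ofReal σ * ENNReal.ofReal (Real.exp r))
        (ENNReal.mul_ne_top ENNReal.ofReal_ne_top ENNReal.ofReal_ne_top) ?_
      rw [← exp_tsum (Nat.cast_nonneg r), ← ENNReal.tsum_mul_left]
      refine ENNReal.tsum_le_tsum fun k => ?_
      rw [lintegral_mul_const _ (H.meas k 0).enorm]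
      gcongr
      exact H.bd k
    filter_upwards [ae_lt_top (Measurable.tsum m) h] with s hs using hs.ne
  have a2 : ∀ᵐ s ∂P, ∀ q : ℚ, Tendsto (fun n => ∑ k ∈ Finset.range n,
      g k s 0 * ((q : ℝ) ^ k / k !)) atTop (𝓝 (g 0 s q)) := by
    refine ae_all_iff.2 fun q => ?_
    have m : ∀ n : ℕ, Measurable fun s => ‖g 0 s q -
        ∑ k ∈ Finset.range n, g k s 0 * ((q : ℝ) ^ k / k !)‖ₑ := by
      intro n
      refine ((H.meas 0 q).sub (Finset.measurable_fun_sum _ fun k _ => ?_)).enorm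
      exact (H.meas k 0).mul_const _
    have h : ∫⁻ s, ∑' n : ℕ, ‖g 0 s q -
        ∑ k ∈ Finset.range n, g k s 0 * ((q : ℝ) ^ k / k !)‖ₑ ∂P ≠ ⊤ := by
      rw [lintegral_tsum fun n => (m n).aemeasurable]
      refine ne_top_of_le_ne_top (b := ENNReal.ofReal σ * ENNReal.ofReal (Real.exp |(q : ℝ)|))
        (ENNReal.mul_ne_top ENNReal.ofReal_ne_top ENNReal.ofReal_ne_top) ?_
      rw [← exp_tsum (abs_nonneg (q : ℝ)), ← ENNReal.tsum_mul_left]
      refine ENNReal.tsum_le_tsum fun n => ?_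
      have := H.rem n 0 q
      simp only [zero_add] at this
      rwa [ENNReal.ofReal_mul H.pos] at this
    filter_upwards [ae_lt_top (Measurable.tsum m) h] with s hs
    have t := ENNReal.tendsto_atTop_zero_of_tsum_ne_top hs.ne
    have t2 : Tendsto (fun n => ‖g 0 s q -
        ∑ k ∈ Finset.range n, g k s 0 * ((q : ℝ) ^ k / k !)‖) atTop (𝓝 0) := by
      have := (ENNReal.tendsto_toReal (by simp : (0 : ℝ≥0∞) ≠ ⊤)).comp t
      rw [ENNReal.toReal_zero] at this
      refine this.congr fun n => ?_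
      simp only [Function.comp, toReal_enorm]
    have t3 := tendsto_zero_iff_norm_tendsto_zero.2 t2
    have t4 := (tendsto_const_nhds (x := g 0 s q)).sub t3
    simpa using t4
  filter_upwards [a1, a2] with s h1 h2
  obtain ⟨F, hF⟩ : ∃ F : ℕ → ℂ → ℂ, F = fun k z => (g k s 0 : ℂ) * (z ^ k / k !) := ⟨_, rfl⟩
  have sm : ∀ r : ℕ, Summable fun k : ℕ => ‖g k s 0‖ * ((r : ℝ) ^ k / k !) := by
    intro r
    have := ENNReal.summable_toReal (h1 r)
    refine this.congr fun k => ?_
    rw [ENNReal.toReal_mul, ENNReal.toReal_ofReal (by positivity), toReal_enorm]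
  have le : ∀ (r : ℕ) (k : ℕ) (z : ℂ), z ∈ ball (0 : ℂ) r →
      ‖F k z‖ ≤ ‖g k s 0‖ * ((r : ℝ) ^ k / k !) := by
    intro r k z hz
    rw [hF]
    simp only [norm_mul, Complex.norm_real, norm_div, norm_pow, Complex.norm_natCast]
    have : ‖z‖ ≤ r := by
      have := mem_ball_zero_iff.1 hz
      exact this.le
    gcongr
  have dF : ∀ k, Differentiable ℂ (F k) := by
    intro k
    rw [hF]
    fun_prop
  have dd : Differentiable ℂ fun z => ∑' k, F k z := by
    intro z
    obtain ⟨r, hr⟩ := exists_nat_gt ‖z‖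
    have := Complex.differentiableOn_tsum_of_summable_norm (sm r) (fun k => (dF k).differentiableOn)
      (isOpen_ball (x := (0 : ℂ)) (ε := r)) (le r)
    exact (this z (by simpa using hr)).differentiableAt (isOpen_ball.mem_nhds (by simpa using hr))
  refine ⟨fun z => ∑' k, F k z, dd, ?_⟩
  have hs : ∀ z : ℂ, Summable fun k => F k z := by
    intro z
    obtain ⟨r, hr⟩ := exists_nat_gt ‖z‖
    exact Summable.of_norm_bounded (sm r) fun k => le r k z (by simpa using hr)
  have eq : ∀ q : ℚ, (fun x : ℝ => ∑' k, F k (x : ℂ)) (q : ℝ) = (g 0 s (q : ℝ) : ℂ) := by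
    intro q
    have t1 := (hs ((q : ℝ) : ℂ)).hasSum.tendsto_sum_nat
    have t2 := (Complex.continuous_ofReal.tendsto _).comp (h2 q)
    refine tendsto_nhds_unique t1 (t2.congr fun n => ?_)
    simp only [Function.comp, hF]
    push_cast
    rfl
  have c1 : Continuous fun x : ℝ => ∑' k, F k (x : ℂ) :=
    dd.continuous.comp Complex.continuous_ofReal
  have c2 : Continuous fun x : ℝ => (g 0 s x : ℂ) := Complex.continuous_ofReal.comp (H.cont 0 s)
  have e3 := Rat.denseRange_cast (𝕜 := ℝ) |>.equalizer c1 c2 (funext fun q => eq q)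
  intro x
  exact congrFun e3 x

/-- the derivatives of the entire extension -/
lemma iter {g : ℕ → ℝ → ℝ} (der : ∀ k y, HasDerivAt (g k) (g (k + 1) y) y) {Φ : ℂ → ℂ}
    (dΦ : Differentiable ℂ Φ) (h0 : ∀ x : ℝ, Φ x = g 0 x) (k : ℕ) :
    Differentiable ℂ (iteratedDeriv k Φ) ∧ ∀ x : ℝ, iteratedDeriv k Φ x = g k x := by
  induction k with
  | zero => simpa [iteratedDeriv_zero] using ⟨dΦ, h0⟩
  | succ k ih =>
    obtain ⟨h1, h2⟩ := ih
    rw [iteratedDeriv_succ]
    refine ⟨?_, fun x => ?_⟩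
    · intro z
      exact ((h1.analyticAt z).deriv).differentiableAt
    · have d1 : HasDerivAt (fun y : ℝ => iteratedDeriv k Φ (y : ℂ))
          (deriv (iteratedDeriv k Φ) x) x := (h1 x).hasDerivAt.comp_ofReal
      have d2 : HasDerivAt (fun y : ℝ => (g k y : ℂ)) (g (k + 1) x : ℂ) x :=
        (der k x).ofReal_comp
      have e : (fun y : ℝ => iteratedDeriv k Φ (y : ℂ)) = fun y : ℝ => (g k y : ℂ) := funext h2
      rw [e] at d1
      exact d1.unique d2

lemma maj {g : ℕ → ℝ → ℝ} (der : ∀ k y, HasDerivAt (g k) (g (k + 1) y) y) {Φ : ℂ → ℂ}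
    (dΦ : Differentiable ℂ Φ) (h0 : ∀ x : ℝ, Φ x = g 0 x) (z : ℂ) :
    ‖Φ z‖ₑ ≤ ∑' k : ℕ, ‖g k z.re‖ₑ * ENNReal.ofReal (|z.im| ^ k / k !) := by
  have h := (Complex.hasSum_taylorSeries_of_entire dΦ (z.re : ℂ) z).tsum_eq
  rw [← h]
  refine enorm_tsum_le_tsum_enorm.trans (le_of_eq (tsum_congr fun k => ?_))
  rw [(iter der dΦ h0 k).2, enorm_smul, enorm_smul]
  have e : z - (z.re : ℂ) = (z.im : ℂ) * Complex.I := by
    apply Complex.ext <;> simp
  rw [e]
  have e2 : ‖((z.im : ℂ) * Complex.I) ^ k‖ₑ = ENNReal.ofReal (|z.im| ^ k) := by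
    rw [← ofReal_norm]
    simp
  have e3 : ‖((k ! : ℂ))⁻¹‖ₑ = ENNReal.ofReal ((k ! : ℝ)⁻¹) := by
    rw [← ofReal_norm]
    simp
  have e4 : ‖(g k z.re : ℂ)‖ₑ = ‖g k z.re‖ₑ := by
    rw [← ofReal_norm, ← ofReal_norm]
    simp
  rw [e2, e3, e4, ← mul_assoc, ← ENNReal.ofReal_mul (by positivity), mul_comm]
  congr 2
  ring

/-- the expected size on a circle -/
theorem Chain.circle [SFinite P] (H : Chain P τ g σ) (R : ℝ) :
    ∫⁻ s, (∫⁻ θ in Set.Ioc 0 (2 * Real.pi), (∑' k : ℕ, ‖g k s (circleMap 0 R θ).re‖ₑ *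
      ENNReal.ofReal (|(circleMap 0 R θ).im| ^ k / k !)) *
        ENNReal.ofReal (Real.exp (-|(circleMap 0 R θ).im|))) ∂P ≤
      ENNReal.ofReal (2 * Real.pi) * ENNReal.ofReal σ := by
  have m : Measurable (Function.uncurry fun (s : S) (θ : ℝ) =>
      (∑' k : ℕ, ‖g k s (circleMap 0 R θ).re‖ₑ *
      ENNReal.ofReal (|(circleMap 0 R θ).im| ^ k / k !)) *
        ENNReal.ofReal (Real.exp (-|(circleMap 0 R θ).im|))) := by
    have mc : Measurable fun p : S × ℝ => circleMap 0 R p.2 :=
      (continuous_circleMap 0 R).measurable.comp measurable_snd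
    have mre : Measurable fun p : S × ℝ => (circleMap 0 R p.2).re :=
      Complex.measurable_re.comp mc
    have mim : Measurable fun p : S × ℝ => |(circleMap 0 R p.2).im| :=
      (Complex.measurable_im.comp mc).abs
    refine Measurable.mul (Measurable.tsum fun k => ?_) ?_
    · refine Measurable.mul ?_ ((mim.pow_const k).div_const _).ennreal_ofReal
      have : Measurable fun p : S × ℝ => g k p.1 (circleMap 0 R p.2).re :=
        (H.jm k).comp (mre.prodMk measurable_fst)
      exact this.enorm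
    · exact (Real.measurable_exp.comp mim.neg).ennreal_ofReal
  rw [lintegral_lintegral_swap m.aemeasurable]
  have key : ∀ θ : ℝ, ∫⁻ s, (∑' k : ℕ, ‖g k s (circleMap 0 R θ).re‖ₑ *
      ENNReal.ofReal (|(circleMap 0 R θ).im| ^ k / k !)) *
        ENNReal.ofReal (Real.exp (-|(circleMap 0 R θ).im|)) ∂P ≤ ENNReal.ofReal σ := by
    intro θ
    have mk : ∀ k : ℕ, Measurable fun s => ‖g k s (circleMap 0 R θ).re‖ₑ *
      ENNReal.ofReal (|(circleMap 0 R θ).im| ^ k / k !) := fun k =>
      (H.meas k _).enorm.mul_const _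
    rw [lintegral_mul_const _ (Measurable.tsum mk), lintegral_tsum
      fun k => (mk k).aemeasurable]
    have b : ∑' k : ℕ, ∫⁻ s, ‖g k s (circleMap 0 R θ).re‖ₑ *
        ENNReal.ofReal (|(circleMap 0 R θ).im| ^ k / k !) ∂P ≤
        ENNReal.ofReal σ * ENNReal.ofReal (Real.exp |(circleMap 0 R θ).im|) := by
      rw [← exp_tsum (abs_nonneg _), ← ENNReal.tsum_mul_left]
      refine ENNReal.tsum_le_tsum fun k => ?_
      rw [lintegral_mul_const _ (H.meas k _).enorm]
      gcongr
      exact H.bdy k _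
    refine (mul_le_mul_left b _).trans (le_of_eq ?_)
    rw [mul_assoc, ← ENNReal.ofReal_mul (Real.exp_pos _).le, ← Real.exp_add]
    simp
  refine (lintegral_mono key).trans (le_of_eq ?_)
  rw [setLIntegral_const, Real.volume_Ioc, sub_zero, mul_comm]

end Pool.Agent.K6.H16.LC
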