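import Pool.Agent.K6.H16.LC.B

/-!
Level crossings of stationary waves on lines, part C: the density of the cells which are hit.
-/

set_option autoImplicit false
open MeasureTheory Filter Topology Metric
open scoped ENNReal Nat

namespace Pool.Agent.K6.H16.LC

variable {S : Type*} [MeasurableSpace S]

/-- the paths which take the value `c` in `[a, b)` -/
def Hit (f : S → ℝ → ℝ) (c a b : ℝ) : Set S := {s | ∃ t ∈ Set.Ico a b, f s t = c}

lemma meas_hitIcc {f : S → ℝ → ℝ} (mf : ∀ y, Measurable fun s => f s y)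
    (cf : ∀ s, Continuous (f s)) (c a b : ℝ) :
    MeasurableSet {s | ∃ t ∈ Set.Icc a b, f s t = c} := by
  obtain ⟨D, hD, cD, dD⟩ := TopologicalSpace.IsSeparable.exists_countable_dense_subset
    (TopologicalSpace.IsSeparable.of_separableSpace (Set.Icc a b))
  have e : {s | ∃ t ∈ Set.Icc a b, f s t = c} =
      ⋂ n : ℕ, ⋃ q ∈ D, {s | |f s q - c| < 1 / (n + 1 : ℝ)} := by
    ext s
    simp only [Set.mem_ofPred_eq, Set.mem_iInter, Set.mem_iUnion, exists_prop]
    have ck : Continuous fun t => |f s t - c| := ((cf s).sub continuous_const).abs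
    constructor
    · rintro ⟨t, ht, h⟩ n
      have o : IsOpen {t | |f s t - c| < 1 / (n + 1 : ℝ)} := isOpen_lt ck continuous_const
      have m : t ∈ {t | |f s t - c| < 1 / (n + 1 : ℝ)} := by
        show |f s t - c| < _
        rw [h, sub_self, abs_zero]; positivity
      obtain ⟨q, h1, h2⟩ := mem_closure_iff.1 (dD ht) _ o m
      exact ⟨q, h2, h1⟩
    · intro h
      have ne : (Set.Icc a b).Nonempty := by
        obtain ⟨q, h1, _⟩ := h 0
        exact ⟨q, hD h1⟩
      obtain ⟨t, ht, hm⟩ := isCompact_Icc.exists_isMinOn ne ck.continuousOn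
      refine ⟨t, ht, ?_⟩
      by_contra hc
      have p : 0 < |f s t - c| := abs_pos.2 (sub_ne_zero.2 hc)
      obtain ⟨n, hn⟩ := exists_nat_one_div_lt p
      obtain ⟨q, h1, h2⟩ := h n
      have := hm (hD h1)
      simp only [Set.mem_ofPred_eq] at this
      linarith
  rw [e]
  refine MeasurableSet.iInter fun n => MeasurableSet.biUnion cD fun q _ => ?_
  exact measurableSet_lt ((mf q).sub_const c).abs measurable_const

lemma meas_hit {f : S → ℝ → ℝ} (mf : ∀ y, Measurable fun s => f s y)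
    (cf : ∀ s, Continuous (f s)) (c a b : ℝ) : MeasurableSet (Hit f c a b) := by
  have e : Hit f c a b = ⋃ m : ℕ, {s | ∃ t ∈ Set.Icc a (b - 1 / (m + 1 : ℝ)), f s t = c} := by
    ext s
    simp only [Hit, Set.mem_ofPred_eq, Set.mem_iUnion]
    constructor
    · rintro ⟨t, ⟨h1, h2⟩, h⟩
      obtain ⟨m, hm⟩ := exists_nat_one_div_lt (sub_pos.2 h2)
      exact ⟨m, t, ⟨h1, by linarith⟩, h⟩
    · rintro ⟨m, t, ⟨h1, h2⟩, h⟩
      have : (0 : ℝ) < 1 / (m + 1 : ℝ) := by positivity
      exact ⟨t, ⟨h1, by linarith⟩, h⟩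
  rw [e]
  exact MeasurableSet.iUnion fun m => meas_hitIcc mf cf c a _

lemma meas_ex {f : S → ℝ → ℝ} (mf : ∀ y, Measurable fun s => f s y)
    (cf : ∀ s, Continuous (f s)) (c : ℝ) : MeasurableSet {s | ∃ t, f s t = c} := by
  have e : {s | ∃ t, f s t = c} = ⋃ m : ℕ, {s | ∃ t ∈ Set.Icc (-m : ℝ) m, f s t = c} := by
    ext s
    simp only [Set.mem_ofPred_eq, Set.mem_iUnion]
    constructor
    · rintro ⟨t, h⟩
      obtain ⟨m, hm⟩ := exists_nat_ge |t|
      exact ⟨m, t, abs_le.1 hm, h⟩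
    · rintro ⟨m, t, _, h⟩
      exact ⟨t, h⟩
  rw [e]
  exact MeasurableSet.iUnion fun m => meas_hitIcc mf cf c _ _

lemma meas_ne {f : S → ℝ → ℝ} (mf : ∀ y, Measurable fun s => f s y)
    (cf : ∀ s, Continuous (f s)) (c : ℝ) : MeasurableSet {s | ∃ t, f s t ≠ c} := by
  have e : {s | ∃ t, f s t ≠ c} = ⋃ q : ℚ, {s | f s q = c}ᶜ := by
    ext s
    simp only [Set.mem_ofPred_eq, Set.mem_iUnion, Set.mem_compl_iff]
    constructor
    · rintro ⟨t, h⟩
      by_contra hc
      push Not at hc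
      have := Rat.denseRange_cast (𝕜 := ℝ) |>.equalizer (cf s) (continuous_const (y := c))
        (funext fun q => hc q)
      exact h (congrFun this t)
    · rintro ⟨q, h⟩
      exact ⟨q, h⟩
  rw [e]
  exact MeasurableSet.iUnion fun q => ((mf q) (measurableSet_singleton c)).compl

variable {P : Measure S} {τ : ℝ → S → S} {g : ℕ → S → ℝ → ℝ} {σ : ℝ}

lemma Chain.hit_shift (H : Chain P τ g σ) (c a b x : ℝ) :
    τ x ⁻¹' Hit (g 0) c a b = Hit (g 0) c (a + x) (b + x) := by
  ext s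
  simp only [Hit, Set.mem_preimage, Set.mem_ofPred_eq, H.cov]
  constructor
  · rintro ⟨t, ⟨h1, h2⟩, h⟩
    exact ⟨t + x, ⟨by linarith, by linarith⟩, h⟩
  · rintro ⟨t, ⟨h1, h2⟩, h⟩
    exact ⟨t - x, ⟨by linarith, by linarith⟩, by rw [sub_add_cancel]; exact h⟩

lemma Chain.hit_eq (H : Chain P τ g σ) {B : Set S} (mB : MeasurableSet B)
    (iB : ∀ x, τ x ⁻¹' B = B) (c a b x : ℝ) :
    P (B ∩ Hit (g 0) c (a + x) (b + x)) = P (B ∩ Hit (g 0) c a b) := by
  rw [← H.hit_shift, ← iB x, ← Set.preimage_inter]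
  rw [iB x]
  exact (H.mp x).measure_preimage (mB.inter (meas_hit (H.meas 0) (H.cont 0) c a b)).nullMeasurableSet

/-- the value `c` at a point -/
lemma Chain.point [IsProbabilityMeasure P] (H : Chain P τ g σ) {B : Set S} (mB : MeasurableSet B)
    (iB : ∀ x, τ x ⁻¹' B = B) {c : ℝ} (hB : ∀ s ∈ B, ∃ t, g 0 s t ≠ c) :
    P (B ∩ {s | g 0 s 0 = c}) = 0 := by
  have mS : MeasurableSet {p : ℝ × S | p.2 ∈ B ∧ g 0 p.2 p.1 = c} :=
    (measurable_snd mB).inter (H.jm 0 (measurableSet_singleton c))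
  have sh : ∀ x, P (B ∩ {s | g 0 s x = c}) = P (B ∩ {s | g 0 s 0 = c}) := by
    intro x
    have e : B ∩ {s | g 0 s x = c} = τ x ⁻¹' (B ∩ {s | g 0 s 0 = c}) := by
      rw [Set.preimage_inter, iB x]
      congr 1
      ext s
      simp only [Set.mem_preimage, Set.mem_ofPred_eq, H.cov, zero_add]
    rw [e]
    exact (H.mp x).measure_preimage
      (mB.inter ((H.meas 0 0) (measurableSet_singleton c))).nullMeasurableSet
  have h1 : ((volume.restrict (Set.Icc (0 : ℝ) 1)).prod P)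
      {p : ℝ × S | p.2 ∈ B ∧ g 0 p.2 p.1 = c} = P (B ∩ {s | g 0 s 0 = c}) := by
    rw [Measure.prod_apply mS]
    have : ∀ x : ℝ, Prod.mk x ⁻¹' {p : ℝ × S | p.2 ∈ B ∧ g 0 p.2 p.1 = c} =
        B ∩ {s | g 0 s x = c} := fun x => rfl
    simp only [this, sh]
    simp
  rw [← h1, Measure.prod_apply_symm mS]
  rw [lintegral_eq_zero_iff (measurable_measure_prodMk_right mS)]
  filter_upwards [H.good] with s hs
  obtain ⟨Φ, dΦ, h0⟩ := hs
  by_cases sB : s ∈ B
  swap
  · have : (fun x : ℝ => (x, s)) ⁻¹' {p : ℝ × S | p.2 ∈ B ∧ g 0 p.2 p.1 = c} = ∅ := by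
      ext x; simp [sB]
    rw [this]; simp
  have e : (fun x : ℝ => (x, s)) ⁻¹' {p : ℝ × S | p.2 ∈ B ∧ g 0 p.2 p.1 = c} =
      {x | g 0 s x = c} := by
    ext x; simp [sB]
  rw [e, Measure.restrict_apply' measurableSet_Icc]
  have fin : ({x | g 0 s x = c} ∩ Set.Icc (0 : ℝ) 1).Finite := by
    by_contra hinf
    obtain ⟨z, _, hz⟩ := Set.Infinite.exists_accPt_of_subset_isCompact hinf isCompact_Icc
      Set.inter_subset_right
    have fr := accPt_iff_frequently.1 hz
    have an : AnalyticOnNhd ℂ (fun z => Φ z - c) Set.univ := fun z _ =>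
      (dΦ.sub_const _).analyticAt z
    have fr2 : ∃ᶠ w in 𝓝[≠] (z : ℂ), (fun z => Φ z - c) w = 0 := by
      have t : Tendsto (fun x : ℝ => (x : ℂ)) (𝓝[≠] z) (𝓝[≠] (z : ℂ)) := by
        refine tendsto_nhdsWithin_of_tendsto_nhds_of_eventually_within _
          (Complex.continuous_ofReal.tendsto' _ _ rfl |>.mono_left nhdsWithin_le_nhds) ?_
        filter_upwards [self_mem_nhdsWithin] with x hx
        simpa using hx
      refine t.frequently ?_
      rw [frequently_nhdsWithin_iff]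
      refine fr.mono fun x hx => ?_
      refine ⟨?_, hx.1⟩
      have := hx.2.1
      simp only [Set.mem_ofPred_eq] at this
      simp only [h0, this, sub_self]
    have := an.eqOn_zero_of_preconnected_of_frequently_eq_zero isPreconnected_univ
      (Set.mem_univ _) fr2
    obtain ⟨t, ht⟩ := hB s sB
    have h2 := this (Set.mem_univ (t : ℂ))
    simp only [h0, Pi.zero_apply, sub_eq_zero] at h2
    exact ht (by exact_mod_cast h2)
  exact fin.measure_zero _

end Pool.Agent.K6.H16.LC
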