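import Pool.Agent.K6.H16.LC.C

/-!
Level crossings of stationary waves on lines, part D: the main inequality for cells.
-/

set_option autoImplicit false
open MeasureTheory Filter Topology Metric
open scoped ENNReal Nat

namespace Pool.Agent.K6.H16.LC

/-- left end points of the cells -/
def lo (p : ℕ × Bool) : ℤ := if p.2 then (p.1 : ℤ) else -(p.1 + 1 : ℤ)

lemma lo_inj : Function.Injective lo := by
  rintro ⟨j, b⟩ ⟨k, c⟩ h
  cases b <;> cases c <;> simp [lo] at h ⊢ <;> omega

lemma lo_abs {p : ℕ × Bool} {h t : ℝ} (hh : 0 < h)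
    (ht : t ∈ Set.Ico ((lo p : ℝ) * h) (((lo p : ℝ) + 1) * h)) : |t| ≤ (p.1 + 1) * h := by
  obtain ⟨j, b⟩ := p
  obtain ⟨h1, h2⟩ := ht
  have j0 : (0 : ℝ) ≤ j := Nat.cast_nonneg j
  cases b
  · simp only [lo, Bool.false_eq_true, if_false] at h1 h2
    push_cast at h1 h2
    have e : (-((j : ℝ) + 1) + 1) * h = -(j * h) := by ring
    rw [e] at h2
    have e2 : -((j : ℝ) + 1) * h = -((j + 1) * h) := by ring
    rw [e2] at h1
    rw [abs_le]
    refine ⟨h1, ?_⟩
    nlinarith [mul_nonneg j0 hh.le]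
  · simp only [lo, if_true] at h1 h2
    push_cast at h1 h2
    rw [abs_le]
    refine ⟨?_, h2.le⟩
    nlinarith [mul_nonneg j0 hh.le]

/-- the deterministic inequality -/
lemma cells {f : ℝ → ℝ} {Φ : ℂ → ℂ} (dΦ : Differentiable ℂ Φ) (h0 : ∀ x : ℝ, Φ x = f x)
    {c h : ℝ} (hh : 0 < h) {n : ℕ} (hn : 0 < n) (hc : f 0 ≠ c) (A : Finset (ℕ × Bool))
    (hA : ∀ p ∈ A, p.1 < n ∧ ∃ t ∈ Set.Ico ((lo p : ℝ) * h) (((lo p : ℝ) + 1) * h), f t = c) :
    ∑ p ∈ A, Real.log (n / (p.1 + 1)) ≤ Real.circleAverage (fun z => Real.log ‖Φ z - c‖) 0 (n * h) -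
      Real.log |f 0 - c| := by
  have hn' : (0 : ℝ) < n := by exact_mod_cast hn
  choose! t ht using fun p hp => (hA p hp).2
  have inj : Set.InjOn t A := by
    intro p hp q hq e
    have fl : ∀ p ∈ A, ⌊t p / h⌋ = lo p := by
      intro p hp
      obtain ⟨⟨h1, h2⟩, _⟩ := ht p hp
      rw [Int.floor_eq_iff]
      exact ⟨by rwa [le_div_iff₀ hh], by rwa [div_lt_iff₀ hh]⟩
    apply lo_inj
    rw [← fl p hp, ← fl q hq, e]
  have J := jensen (Φ := fun z => Φ z - c) (dΦ.sub_const _) (R := n * h) (by positivity)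
    (by
      have := h0 0
      simp only [Complex.ofReal_zero] at this
      simp only [this]
      intro h
      exact hc (by exact_mod_cast sub_eq_zero.1 h)) (A.image t) (by
      intro x hx
      obtain ⟨p, hp, rfl⟩ := Finset.mem_image.1 hx
      obtain ⟨h1, h2⟩ := ht p hp
      refine ⟨(lo_abs hh h1).trans ?_, ?_⟩
      · have : ((p.1 : ℝ) + 1) ≤ n := by exact_mod_cast (hA p hp).1
        exact mul_le_mul_of_nonneg_right this hh.le
      · simp only [h0, h2, sub_self])
  rw [Finset.sum_image inj] at J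
  have e0 : ‖Φ 0 - c‖ = |f 0 - c| := by
    have := h0 0
    simp only [Complex.ofReal_zero] at this
    rw [this, ← Complex.ofReal_sub, Complex.norm_real, Real.norm_eq_abs]
  rw [e0] at J
  refine le_trans (Finset.sum_le_sum fun p hp => ?_) J
  obtain ⟨h1, h2⟩ := ht p hp
  have t0 : t p ≠ 0 := by
    intro h
    rw [h] at h2
    exact hc h2
  have a0 : 0 < |t p| := abs_pos.2 t0
  have p0 : (0 : ℝ) < p.1 + 1 := by positivity
  refine Real.log_le_log (by positivity) ?_
  rw [div_le_div_iff₀ p0 a0]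
  have := mul_le_mul_of_nonneg_left (lo_abs hh h1) hn'.le
  linarith

variable {S : Type*} [MeasurableSpace S]
variable {P : Measure S} {τ : ℝ → S → S} {g : ℕ → S → ℝ → ℝ} {σ : ℝ}

/-- the integrand on the circle -/
noncomputable def GG (g : ℕ → S → ℝ → ℝ) (R : ℝ) (s : S) : ℝ≥0∞ :=
  ∫⁻ θ in Set.Ioc 0 (2 * Real.pi), (∑' k : ℕ, ‖g k s (circleMap 0 R θ).re‖ₑ *
      ENNReal.ofReal (|(circleMap 0 R θ).im| ^ k / k !)) *
        ENNReal.ofReal (Real.exp (-|(circleMap 0 R θ).im|))

omit [MeasurableSpace S] in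
lemma circ_enn {g : ℕ → S → ℝ → ℝ} {s : S} (der : ∀ k y, HasDerivAt (g k s) (g (k + 1) s y) y)
    {Φ : ℂ → ℂ} (dΦ : Differentiable ℂ Φ) (h0 : ∀ x : ℝ, Φ x = g 0 s x) {R : ℝ} (hR : 0 < R) :
    ENNReal.ofReal (∫ θ in (0 : ℝ)..2 * Real.pi,
      ‖Φ (circleMap 0 R θ)‖ * Real.exp (-(R * |Real.sin θ|))) ≤ GG g R s := by
  have cΦ : Continuous fun θ : ℝ => Φ (circleMap 0 R θ) :=
    dΦ.continuous.comp (continuous_circleMap 0 R)
  have cE : Continuous fun θ : ℝ => Real.exp (-(R * |Real.sin θ|)) := by fun_prop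
  have c2 : Continuous fun θ : ℝ =>
    ‖Φ (circleMap 0 R θ)‖ * Real.exp (-(R * |Real.sin θ|)) := cΦ.norm.mul cE
  rw [intervalIntegral.integral_of_le (by positivity), ofReal_integral_eq_lintegral_ofReal
    (c2.integrableOn_Icc.mono_set Set.Ioc_subset_Icc_self)
    (ae_of_all _ fun θ => by positivity)]
  refine lintegral_mono fun θ => ?_
  have im : |(circleMap 0 R θ).im| = R * |Real.sin θ| := by
    simp [circleMap, Complex.exp_ofReal_mul_I_im, abs_mul, abs_of_pos hR]
  rw [ENNReal.ofReal_mul (norm_nonneg _), im, ofReal_norm]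
  have := maj der dΦ h0 (circleMap 0 R θ)
  rw [im] at this
  gcongr

open Classical in
/-- the inequality in the mean -/
theorem Chain.step [IsProbabilityMeasure P] (H : Chain P τ g σ) {B : Set S}
    (mB : MeasurableSet B) (c : ℝ) {h : ℝ} (hh : 0 < h) {n : ℕ} (hn : 0 < n) {δ : ℝ}
    (hδ : 0 < δ) (Bδ : Set S) (hBδ : Bδ = B ∩ {s | δ ≤ |g 0 s 0 - c|}) :
    ∑ p ∈ Finset.range n ×ˢ (Finset.univ : Finset Bool), ENNReal.ofReal (Real.log (n / (p.1 + 1))) *
      P (Bδ ∩ Hit (g 0) c ((lo p : ℝ) * h) (((lo p : ℝ) + 1) * h)) ≤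
        ENNReal.ofReal (2 * (n * h) / Real.pi + |c| + Real.log (1 / δ)) * P Bδ +
          ENNReal.ofReal σ := by
  have hn' : (0 : ℝ) < n := by exact_mod_cast hn
  have mh : ∀ p : ℕ × Bool, MeasurableSet
      (Hit (g 0) c ((lo p : ℝ) * h) (((lo p : ℝ) + 1) * h)) := fun p =>
    meas_hit (H.meas 0) (H.cont 0) c _ _
  have mBδ : MeasurableSet Bδ := by
    rw [hBδ]
    exact mB.inter (measurableSet_le measurable_const ((H.meas 0 0).sub_const c).abs)
  have e1 : ∀ p : ℕ × Bool, ENNReal.ofReal (Real.log (n / (p.1 + 1))) *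
      P (Bδ ∩ Hit (g 0) c ((lo p : ℝ) * h) (((lo p : ℝ) + 1) * h)) =
      ∫⁻ s in Bδ, ENNReal.ofReal (Real.log (n / (p.1 + 1))) *
        (Hit (g 0) c ((lo p : ℝ) * h) (((lo p : ℝ) + 1) * h)).indicator 1 s ∂P := by
    intro p
    rw [lintegral_const_mul _ (measurable_one.indicator (mh p)), lintegral_indicator_one (mh p),
      Measure.restrict_apply (mh p), Set.inter_comm]
  simp only [e1]
  rw [← lintegral_finsetSum _ fun p _ =>
    (measurable_one.indicator (mh p)).const_mul _]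
  have e2 : ∀ᵐ s ∂(P.restrict Bδ), ∑ p ∈ Finset.range n ×ˢ (Finset.univ : Finset Bool),
      ENNReal.ofReal (Real.log (n / (p.1 + 1))) *
        (Hit (g 0) c ((lo p : ℝ) * h) (((lo p : ℝ) + 1) * h)).indicator 1 s ≤
      ENNReal.ofReal (2 * (n * h) / Real.pi + |c| + Real.log (1 / δ)) +
        ENNReal.ofReal ((2 * Real.pi)⁻¹) * GG g (n * h) s := by
    filter_upwards [ae_restrict_of_ae H.good, ae_restrict_mem mBδ] with s hs sB
    obtain ⟨Φ, dΦ, h0⟩ := hs
    rw [hBδ] at sB
    have hδs : δ ≤ |g 0 s 0 - c| := sB.2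
    have hc : g 0 s 0 ≠ c := by
      intro h
      rw [h, sub_self, abs_zero] at hδs
      linarith
    obtain ⟨A, hA⟩ : ∃ A, A = (Finset.range n ×ˢ (Finset.univ : Finset Bool)).filter
      (fun p => s ∈ Hit (g 0) c ((lo p : ℝ) * h) (((lo p : ℝ) + 1) * h)) := ⟨_, rfl⟩
    have e3 : ∑ p ∈ Finset.range n ×ˢ (Finset.univ : Finset Bool),
      ENNReal.ofReal (Real.log (n / (p.1 + 1))) *
        (Hit (g 0) c ((lo p : ℝ) * h) (((lo p : ℝ) + 1) * h)).indicator 1 s =
        ENNReal.ofReal (∑ p ∈ A, Real.log (n / (p.1 + 1))) := by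
      rw [ENNReal.ofReal_sum_of_nonneg]
      · rw [hA, Finset.sum_filter]
        refine Finset.sum_congr rfl fun p _ => ?_
        by_cases hp : s ∈ Hit (g 0) c ((lo p : ℝ) * h) (((lo p : ℝ) + 1) * h)
        · simp [hp]
        · simp [hp]
      · intro p hp
        rw [hA, Finset.mem_filter, Finset.mem_product, Finset.mem_range] at hp
        refine Real.log_nonneg ?_
        rw [one_le_div (by positivity)]
        exact_mod_cast hp.1.1
    rw [e3]
    have k1 := cells dΦ h0 hh hn hc A (by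
      intro p hp
      rw [hA, Finset.mem_filter, Finset.mem_product, Finset.mem_range] at hp
      exact ⟨hp.1.1, hp.2⟩)
    have k2 := circ dΦ (R := n * h) (by positivity) c
    have k3 : -Real.log |g 0 s 0 - c| ≤ Real.log (1 / δ) := by
      rw [one_div, Real.log_inv]
      exact neg_le_neg (Real.log_le_log hδ hδs)
    have k4 : ∑ p ∈ A, Real.log (n / (p.1 + 1)) ≤
        (2 * (n * h) / Real.pi + |c| + Real.log (1 / δ)) + (2 * Real.pi)⁻¹ *
        ∫ θ in (0 : ℝ)..2 * Real.pi,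
          ‖Φ (circleMap 0 (n * h) θ)‖ * Real.exp (-(n * h * |Real.sin θ|)) := by
      linarith
    refine (ENNReal.ofReal_le_ofReal k4).trans (ENNReal.ofReal_add_le.trans ?_)
    gcongr
    rw [ENNReal.ofReal_mul (by positivity)]
    gcongr
    exact circ_enn (fun k y => H.der k s y) dΦ h0 (by positivity)
  refine (lintegral_mono_ae e2).trans ?_
  rw [lintegral_add_left measurable_const, lintegral_const, Measure.restrict_apply_univ]
  gcongr
  have k5 : ∫⁻ s in Bδ, ENNReal.ofReal ((2 * Real.pi)⁻¹) * GG g (n * h) s ∂P ≤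
      ∫⁻ s, ENNReal.ofReal ((2 * Real.pi)⁻¹) * GG g (n * h) s ∂P :=
    lintegral_mono' Measure.restrict_le_self le_rfl
  refine k5.trans ?_
  rw [lintegral_const_mul' _ _ ENNReal.ofReal_ne_top]
  have k6 := H.circle (n * h)
  have k7 : ENNReal.ofReal ((2 * Real.pi)⁻¹) * ∫⁻ s, GG g (n * h) s ∂P ≤
      ENNReal.ofReal ((2 * Real.pi)⁻¹) * (ENNReal.ofReal (2 * Real.pi) * ENNReal.ofReal σ) :=
    mul_le_mul_right k6 _
  refine k7.trans (le_of_eq ?_)
  rw [← mul_assoc, ← ENNReal.ofReal_mul (by positivity), inv_mul_cancel₀ (by positivity)]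
  simp

lemma asym_le (n : ℕ) : ∑ j ∈ Finset.range n, (1 - 1 / ((j : ℝ) + 1)) ≤
    ∑ j ∈ Finset.range n, Real.log (n / (j + 1)) := by
  induction n with
  | zero => simp
  | succ n ih =>
    rcases Nat.eq_zero_or_pos n with rfl | hn
    · simp
    have hn' : (0 : ℝ) < n := by exact_mod_cast hn
    rw [Finset.sum_range_succ, Finset.sum_range_succ _ n]
    have e : ∀ m : ℝ, 0 < m → ∑ j ∈ Finset.range n, Real.log (m / (j + 1)) =
        n * Real.log m - ∑ j ∈ Finset.range n, Real.log ((j : ℝ) + 1) := by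
      intro m hm
      have : ∀ j ∈ Finset.range n, Real.log (m / (j + 1)) =
          Real.log m - Real.log ((j : ℝ) + 1) := by
        intro j _
        rw [Real.log_div hm.ne' (by positivity)]
      rw [Finset.sum_congr rfl this, Finset.sum_sub_distrib]
      simp
    rw [e n hn'] at ih
    push_cast
    rw [e (n + 1) (by positivity), div_self (by positivity), Real.log_one, add_zero]
    have h1 : 1 - 1 / ((n : ℝ) + 1) ≤ n * (Real.log (n + 1) - Real.log n) := by
      have h2 := Real.one_sub_inv_le_log_of_pos (x := ((n : ℝ) + 1) / n) (by positivity)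
      rw [Real.log_div (by positivity) hn'.ne'] at h2
      have h3 := mul_le_mul_of_nonneg_left h2 hn'.le
      refine le_trans (le_of_eq ?_) h3
      have : (n : ℝ) + 1 ≠ 0 := by positivity
      field_simp
      ring
    linarith

/-- **The main inequality for cells.** -/
theorem Chain.cell [IsProbabilityMeasure P] (H : Chain P τ g σ) {B : Set S}
    (mB : MeasurableSet B) (iB : ∀ x, τ x ⁻¹' B = B) {c : ℝ} (hB : ∀ s ∈ B, ∃ t, g 0 s t ≠ c)
    {h : ℝ} (hh : 0 < h) : P.real (B ∩ Hit (g 0) c 0 h) ≤ h / Real.pi * P.real B := by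
  have pi0 := Real.pi_pos
  have main : ∀ δ : ℝ, 0 < δ → δ ≤ 1 → P.real (B ∩ Hit (g 0) c 0 h) -
      P.real (B ∩ {s | |g 0 s 0 - c| < δ}) ≤ h / Real.pi * P.real B := by
    intro δ hδ hδ1
    obtain ⟨q, hq⟩ : ∃ q, q = P.real (B ∩ Hit (g 0) c 0 h) -
      P.real (B ∩ {s | |g 0 s 0 - c| < δ}) := ⟨_, rfl⟩
    rw [← hq]
    rcases le_or_gt q 0 with q0 | q0
    · exact q0.trans (by positivity)
    obtain ⟨Bδ, hBδ⟩ : ∃ Bδ, Bδ = B ∩ {s | δ ≤ |g 0 s 0 - c|} := ⟨_, rfl⟩
    have l0 : 0 ≤ Real.log (1 / δ) := Real.log_nonneg (by rwa [one_le_div hδ])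
    have cellq : ∀ p : ℕ × Bool, q ≤
        P.real (Bδ ∩ Hit (g 0) c ((lo p : ℝ) * h) (((lo p : ℝ) + 1) * h)) := by
      intro p
      have e : P.real (B ∩ Hit (g 0) c ((lo p : ℝ) * h) (((lo p : ℝ) + 1) * h)) =
          P.real (B ∩ Hit (g 0) c 0 h) := by
        unfold Measure.real
        rw [← H.hit_eq mB iB c 0 h ((lo p : ℝ) * h)]
        congr 4 <;> ring
      rw [hq, ← e, sub_le_iff_le_add]
      refine (measureReal_mono ?_).trans (measureReal_union_le _ _)
      intro s hs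
      by_cases hs' : δ ≤ |g 0 s 0 - c|
      · left
        rw [hBδ]
        exact ⟨⟨hs.1, hs'⟩, hs.2⟩
      · right
        exact ⟨hs.1, not_le.1 hs'⟩
    have bound : ∀ n : ℕ, 0 < n → q * ((n : ℝ)⁻¹ * ∑ j ∈ Finset.range n, (1 - 1 / ((j : ℝ) + 1))) ≤
        h / Real.pi * P.real B + (|c| + Real.log (1 / δ) + σ) / 2 * (1 / (n : ℝ)) := by
      intro n hn
      have hn' : (0 : ℝ) < n := by exact_mod_cast hn
      have s1 := H.step mB c hh hn hδ Bδ hBδ
      have s2 := ENNReal.toReal_mono (by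
        refine ENNReal.add_ne_top.2 ⟨ENNReal.mul_ne_top ENNReal.ofReal_ne_top
          (measure_ne_top _ _), ENNReal.ofReal_ne_top⟩) s1
      rw [ENNReal.toReal_add (ENNReal.mul_ne_top ENNReal.ofReal_ne_top
          (measure_ne_top _ _)) ENNReal.ofReal_ne_top, ENNReal.toReal_mul,
        ENNReal.toReal_ofReal (by positivity), ENNReal.toReal_ofReal H.pos,
        ENNReal.toReal_sum (fun p _ => ENNReal.mul_ne_top ENNReal.ofReal_ne_top
          (measure_ne_top _ _))] at s2
      have s3 : ∑ p ∈ Finset.range n ×ˢ (Finset.univ : Finset Bool),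
          Real.log (n / (p.1 + 1)) * q ≤ ∑ p ∈ Finset.range n ×ˢ (Finset.univ : Finset Bool),
          (ENNReal.ofReal (Real.log (n / (p.1 + 1))) *
            P (Bδ ∩ Hit (g 0) c ((lo p : ℝ) * h) (((lo p : ℝ) + 1) * h))).toReal := by
        refine Finset.sum_le_sum fun p hp => ?_
        rw [Finset.mem_product, Finset.mem_range] at hp
        have w0 : 0 ≤ Real.log ((n : ℝ) / (p.1 + 1)) := by
          refine Real.log_nonneg ?_
          rw [one_le_div (by positivity)]
          exact_mod_cast hp.1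
        rw [ENNReal.toReal_mul, ENNReal.toReal_ofReal w0]
        exact mul_le_mul_of_nonneg_left (cellq p) w0
      have s4 : ∑ p ∈ Finset.range n ×ˢ (Finset.univ : Finset Bool),
          Real.log (n / (p.1 + 1)) * q =
          2 * q * ∑ j ∈ Finset.range n, Real.log (n / (j + 1)) := by
        rw [Finset.sum_product]
        simp only [Fintype.sum_bool]
        rw [Finset.mul_sum]
        exact Finset.sum_congr rfl fun j _ => by ring
      rw [s4] at s3
      have s5 := asym_le n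
      have s6 : 2 * q * ∑ j ∈ Finset.range n, (1 - 1 / ((j : ℝ) + 1)) ≤
          2 * q * ∑ j ∈ Finset.range n, Real.log (n / (j + 1)) :=
        mul_le_mul_of_nonneg_left s5 (by positivity)
      have b1 : P.real Bδ ≤ P.real B := by
        rw [hBδ]
        exact measureReal_mono Set.inter_subset_left
      have b2 : P.real Bδ ≤ 1 := measureReal_le_one
      have b0 : 0 ≤ P.real Bδ := measureReal_nonneg
      have s7 : (2 * (n * h) / Real.pi + |c| + Real.log (1 / δ)) * P.real Bδ + σ ≤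
          2 * (n * h) / Real.pi * P.real B + (|c| + Real.log (1 / δ) + σ) := by
        have t1 : 2 * (n * h) / Real.pi * P.real Bδ ≤ 2 * (n * h) / Real.pi * P.real B :=
          mul_le_mul_of_nonneg_left b1 (by positivity)
        have t2 : (|c| + Real.log (1 / δ)) * P.real Bδ ≤ (|c| + Real.log (1 / δ)) * 1 :=
          mul_le_mul_of_nonneg_left b2 (by positivity)
        nlinarith
      have s8 : 2 * q * ∑ j ∈ Finset.range n, (1 - 1 / ((j : ℝ) + 1)) ≤
          2 * (n * h) / Real.pi * P.real B + (|c| + Real.log (1 / δ) + σ) :=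
        s6.trans (s3.trans (s2.trans s7))
      have s9 := mul_le_mul_of_nonneg_left s8 (by positivity : (0 : ℝ) ≤ (2 * (n : ℝ))⁻¹)
      have e1 : (2 * (n : ℝ))⁻¹ * (2 * q * ∑ j ∈ Finset.range n, (1 - 1 / ((j : ℝ) + 1))) =
          q * ((n : ℝ)⁻¹ * ∑ j ∈ Finset.range n, (1 - 1 / ((j : ℝ) + 1))) := by
        field_simp
      have e2 : (2 * (n : ℝ))⁻¹ * (2 * (n * h) / Real.pi * P.real B +
          (|c| + Real.log (1 / δ) + σ)) =
          h / Real.pi * P.real B + (|c| + Real.log (1 / δ) + σ) / 2 * (1 / (n : ℝ)) := by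
        field_simp
      rw [e1, e2] at s9
      exact s9
    have u1 : Tendsto (fun j : ℕ => 1 - 1 / ((j : ℝ) + 1)) atTop (𝓝 1) := by
      have := (tendsto_const_nhds (x := (1 : ℝ))).sub tendsto_one_div_add_atTop_nhds_zero_nat
      simpa using this
    have u2 := (u1.cesaro).const_mul q
    have u3 : Tendsto (fun n : ℕ => h / Real.pi * P.real B +
        (|c| + Real.log (1 / δ) + σ) / 2 * (1 / (n : ℝ))) atTop (𝓝 (h / Real.pi * P.real B)) := by
      have := (tendsto_const_nhds (x := h / Real.pi * P.real B)).add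
        ((tendsto_one_div_atTop_nhds_zero_nat (𝕜 := ℝ)).const_mul
          ((|c| + Real.log (1 / δ) + σ) / 2))
      simpa using this
    have := le_of_tendsto_of_tendsto u2 u3 (by
      filter_upwards [eventually_gt_atTop 0] with n hn using bound n hn)
    simpa using this
  -- let `δ → 0`
  have v1 : Tendsto (fun n : ℕ => P.real (B ∩ {s | |g 0 s 0 - c| < 1 / ((n : ℝ) + 1)})) atTop
      (𝓝 0) := by
    have mm : ∀ n : ℕ, MeasurableSet (B ∩ {s | |g 0 s 0 - c| < 1 / ((n : ℝ) + 1)}) := fun n =>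
      mB.inter (measurableSet_lt ((H.meas 0 0).sub_const c).abs measurable_const)
    have an : Antitone fun n : ℕ => B ∩ {s | |g 0 s 0 - c| < 1 / ((n : ℝ) + 1)} := by
      intro n m hnm s hs
      refine ⟨hs.1, ?_⟩
      have h1 : |g 0 s 0 - c| < 1 / ((m : ℝ) + 1) := hs.2
      have h2 : 1 / ((m : ℝ) + 1) ≤ 1 / ((n : ℝ) + 1) := by
        have : (n : ℝ) ≤ m := by exact_mod_cast hnm
        gcongr
      exact h1.trans_le h2
    have t := tendsto_measure_iInter_atTop (μ := P) (fun n => (mm n).nullMeasurableSet) an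
      ⟨0, measure_ne_top _ _⟩
    have e : ⋂ n : ℕ, B ∩ {s | |g 0 s 0 - c| < 1 / ((n : ℝ) + 1)} = B ∩ {s | g 0 s 0 = c} := by
      ext s
      simp only [Set.mem_iInter, Set.mem_inter_iff, Set.mem_ofPred_eq]
      constructor
      · intro hs
        refine ⟨(hs 0).1, ?_⟩
        by_contra hne
        have p : 0 < |g 0 s 0 - c| := abs_pos.2 (sub_ne_zero.2 hne)
        obtain ⟨n, hn⟩ := exists_nat_one_div_lt p
        linarith [(hs n).2]
      · rintro ⟨h1, h2⟩ n
        refine ⟨h1, ?_⟩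
        rw [h2, sub_self, abs_zero]
        positivity
    rw [e, H.point mB iB hB] at t
    have := (ENNReal.tendsto_toReal (by simp : (0 : ℝ≥0∞) ≠ ⊤)).comp t
    rw [ENNReal.toReal_zero] at this
    exact this
  have v2 := (tendsto_const_nhds (x := P.real (B ∩ Hit (g 0) c 0 h))).sub v1
  rw [sub_zero] at v2
  refine le_of_tendsto v2 (Eventually.of_forall fun n => ?_)
  refine main _ (by positivity) ?_
  rw [div_le_one (by positivity)]
  have : (0 : ℝ) ≤ n := Nat.cast_nonneg n
  linarith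

end Pool.Agent.K6.H16.LC
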