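import Pool.Agent.K6.H16.LC.D
import Pool.Agent.Y139.SW.B

/-!
Level crossings of stationary waves on lines, part E: counting, and waves in `ℝ^d`.
-/

set_option autoImplicit false
open MeasureTheory Filter Topology Metric
open scoped ENNReal Nat ContDiff

namespace Pool.Agent.K6.H16.LC

section count

variable {S : Type*}

/-- the number of `t ∈ [0, 1)` with `f s t = c` -/
noncomputable def num (f : S → ℝ → ℝ) (c : ℝ) (s : S) : ℝ≥0∞ :=
  ({t : ℝ | t ∈ Set.Ico 0 1 ∧ f s t = c}.encard : ℝ≥0∞)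

/-- the number of cells hit -/
noncomputable def app (f : S → ℝ → ℝ) (c : ℝ) (m : ℕ) (s : S) : ℝ≥0∞ :=
  ∑ k ∈ Finset.range m, (Hit f c (k / m) ((k + 1) / m)).indicator 1 s

open Classical in
lemma app_eq (f : S → ℝ → ℝ) (c : ℝ) (m : ℕ) (s : S) : app f c m s =
    (((Finset.range m).filter fun k : ℕ => s ∈ Hit f c (k / m) ((k + 1) / m)).card : ℝ≥0∞) := by
  unfold app
  rw [Finset.card_filter]
  push_cast
  refine Finset.sum_congr rfl fun k _ => ?_
  by_cases h : s ∈ Hit f c (k / m) ((k + 1) / m) <;> simp [h]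

lemma app_le (f : S → ℝ → ℝ) (c : ℝ) (m : ℕ) (s : S) : app f c m s ≤ num f c s := by
  classical
  rw [app_eq]
  obtain ⟨A, hA⟩ : ∃ A, A = (Finset.range m).filter
    fun k : ℕ => s ∈ Hit f c (k / m) ((k + 1) / m) := ⟨_, rfl⟩
  rw [← hA]
  have hA' : ∀ k ∈ A, k < m ∧ ∃ t ∈ Set.Ico ((k : ℝ) / m) ((k + 1) / m), f s t = c := by
    intro k hk
    rw [hA, Finset.mem_filter, Finset.mem_range] at hk
    exact hk
  choose! t ht using fun k hk => (hA' k hk).2
  have inj : Set.InjOn t A := by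
    intro k hk l hl e
    have fl : ∀ k ∈ A, ⌊t k * m⌋ = (k : ℤ) := by
      intro k hk
      have m0 : (0 : ℝ) < m := by
        have := (hA' k hk).1
        exact_mod_cast (Nat.zero_le k).trans_lt this
      obtain ⟨⟨h1, h2⟩, _⟩ := ht k hk
      rw [Int.floor_eq_iff]
      rw [div_le_iff₀ m0] at h1
      rw [lt_div_iff₀ m0] at h2
      exact ⟨by exact_mod_cast h1, by exact_mod_cast h2⟩
    have := fl k hk
    rw [e, fl l hl] at this
    exact_mod_cast this.symm
  have sub : ((A.image t : Finset ℝ) : Set ℝ) ⊆ {t : ℝ | t ∈ Set.Ico 0 1 ∧ f s t = c} := by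
    intro x hx
    obtain ⟨k, hk, rfl⟩ := Finset.mem_image.1 hx
    obtain ⟨⟨h1, h2⟩, h3⟩ := ht k hk
    have m0 : (0 : ℝ) < m := by
      have := (hA' k hk).1
      exact_mod_cast (Nat.zero_le k).trans_lt this
    refine ⟨⟨le_trans (by positivity) h1, h2.trans_le ?_⟩, h3⟩
    rw [div_le_one m0]
    exact_mod_cast (hA' k hk).1
  have h := Set.encard_le_encard sub
  rw [Set.encard_coe_eq_coe_finsetCard, Finset.card_image_of_injOn inj] at h
  unfold num
  have := ENat.toENNReal_le.2 h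
  simpa using this

lemma fin_le (f : S → ℝ → ℝ) (c : ℝ) (s : S) (T : Finset ℝ)
    (hT : ∀ t ∈ T, t ∈ Set.Ico (0 : ℝ) 1 ∧ f s t = c) :
    ∀ᶠ m : ℕ in atTop, (T.card : ℝ≥0∞) ≤ app f c m s := by
  classical
  have ev : ∀ᶠ m : ℕ in atTop, ∀ p ∈ T.offDiag, 1 / (m : ℝ) < |p.1 - p.2| := by
    rw [eventually_all_finset]
    intro p hp
    rw [Finset.mem_offDiag] at hp
    have : 0 < |p.1 - p.2| := abs_pos.2 (sub_ne_zero.2 hp.2.2)
    exact (tendsto_one_div_atTop_nhds_zero_nat (𝕜 := ℝ)).eventually (gt_mem_nhds this)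
  filter_upwards [ev, eventually_gt_atTop 0] with m hm m0
  have m0' : (0 : ℝ) < m := by exact_mod_cast m0
  rw [app_eq]
  have mem : ∀ t ∈ T, ((⌊t * m⌋₊ : ℝ) / m ≤ t ∧ t < ((⌊t * m⌋₊ : ℝ) + 1) / m) := by
    intro t ht
    obtain ⟨⟨h1, _⟩, _⟩ := hT t ht
    rw [div_le_iff₀ m0', lt_div_iff₀ m0']
    exact ⟨Nat.floor_le (by positivity), Nat.lt_floor_add_one _⟩
  have le : T.card ≤ ((Finset.range m).filter
      fun k : ℕ => s ∈ Hit f c (k / m) ((k + 1) / m)).card := by
    refine Finset.card_le_card_of_injOn (fun t => ⌊t * m⌋₊) ?_ ?_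
    · intro t ht
      have ht' : t ∈ T := ht
      obtain ⟨⟨h1, h2⟩, h3⟩ := hT t ht'
      simp only [Finset.coe_filter, Finset.mem_range, Set.mem_ofPred_eq]
      refine ⟨?_, t, mem t ht', h3⟩
      rw [Nat.floor_lt (by positivity)]
      nlinarith
    · intro x hx y hy e
      have hx' : x ∈ T := hx
      have hy' : y ∈ T := hy
      by_contra hne
      have h1 := hm (x, y) (Finset.mem_offDiag.2 ⟨hx', hy', hne⟩)
      have h2 := mem x hx'
      have h3 := mem y hy'
      simp only at e h1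
      rw [e] at h2
      have h4 : ((⌊y * m⌋₊ : ℝ) + 1) / m = (⌊y * m⌋₊ : ℝ) / m + 1 / m := by ring
      rw [h4] at h2 h3
      have : |x - y| < 1 / (m : ℝ) := by
        rw [abs_lt]
        constructor <;> linarith [h2.1, h2.2, h3.1, h3.2]
      linarith
  exact_mod_cast le

lemma num_le (f : S → ℝ → ℝ) (c : ℝ) (s : S) :
    num f c s ≤ liminf (fun m => app f c m s) atTop := by
  classical
  unfold num
  obtain ⟨Z, hZ⟩ : ∃ Z, Z = {t : ℝ | t ∈ Set.Ico 0 1 ∧ f s t = c} := ⟨_, rfl⟩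
  rw [← hZ]
  rcases Z.finite_or_infinite with h | h
  · have k := fin_le f c s h.toFinset (by
      intro t ht
      rw [Set.Finite.mem_toFinset, hZ] at ht
      exact ht)
    have e : (Z.encard : ℝ≥0∞) = (h.toFinset.card : ℝ≥0∞) := by
      rw [h.encard_eq_coe_toFinset_card]
      simp
    rw [e]
    exact le_liminf_of_le (by isBoundedDefault) k
  · have e : ∀ n : ℕ, (n : ℝ≥0∞) ≤ liminf (fun m => app f c m s) atTop := by
      intro n
      obtain ⟨T, hT, hc⟩ := h.exists_subset_card_eq n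
      have k := fin_le f c s T (by
        intro t ht
        have := hT ht
        rw [hZ] at this
        exact this)
      rw [hc] at k
      exact le_liminf_of_le (by isBoundedDefault) k
    have : liminf (fun m => app f c m s) atTop = ⊤ := ENNReal.eq_top_of_forall_nnreal_le fun r => by
      obtain ⟨n, hn⟩ := exists_nat_ge r
      refine le_trans ?_ (e n)
      exact_mod_cast hn
    rw [this]
    exact le_top

lemma num_eq (f : S → ℝ → ℝ) (c : ℝ) (s : S) :
    num f c s = liminf (fun m => app f c m s) atTop := by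
  refine le_antisymm (num_le f c s) ?_
  refine liminf_le_of_le (by isBoundedDefault) fun b hb => ?_
  obtain ⟨m, hm⟩ := hb.exists
  exact hm.trans (app_le f c m s)

variable [MeasurableSpace S]

lemma app_meas {f : S → ℝ → ℝ} (mf : ∀ y, Measurable fun s => f s y)
    (cf : ∀ s, Continuous (f s)) (c : ℝ) (m : ℕ) : Measurable (app f c m) :=
  Finset.measurable_fun_sum _ fun _ _ => measurable_one.indicator (meas_hit mf cf c _ _)

lemma num_meas {f : S → ℝ → ℝ} (mf : ∀ y, Measurable fun s => f s y)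
    (cf : ∀ s, Continuous (f s)) (c : ℝ) : Measurable (num f c) := by
  have : num f c = fun s => liminf (fun m => app f c m s) atTop := funext (num_eq f c)
  rw [this]
  exact Measurable.liminf fun m => app_meas mf cf c m

/-- counting from cells -/
lemma num_int {P : Measure S} {f : S → ℝ → ℝ} (mf : ∀ y, Measurable fun s => f s y)
    (cf : ∀ s, Continuous (f s)) (c : ℝ) {B : Set S} (a : ℝ≥0∞)
    (h : ∀ m : ℕ, 0 < m → ∀ k : ℕ, P (B ∩ Hit f c (k / m) ((k + 1) / m)) ≤ a / m) :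
    ∫⁻ s in B, num f c s ∂P ≤ a := by
  simp only [num_eq]
  refine (lintegral_liminf_le fun m => app_meas mf cf c m).trans ?_
  refine liminf_le_of_le (by isBoundedDefault) fun b hb => ?_
  obtain ⟨m, hm, m0⟩ := (hb.and (eventually_gt_atTop 0)).exists
  refine hm.trans ?_
  unfold app
  rw [lintegral_finsetSum _ fun k _ => measurable_one.indicator (meas_hit mf cf c _ _)]
  have e : ∀ k ∈ Finset.range m, ∫⁻ s in B, (Hit f c (k / m) ((k + 1) / m)).indicator 1 s ∂P ≤
      a / m := by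
    intro k _
    rw [lintegral_indicator_one (meas_hit mf cf c _ _), Measure.restrict_apply
      (meas_hit mf cf c _ _), Set.inter_comm]
    exact h m m0 k
  refine (Finset.sum_le_sum e).trans (le_of_eq ?_)
  rw [Finset.sum_const, Finset.card_range, nsmul_eq_mul]
  refine ENNReal.mul_div_cancel ?_ (ENNReal.natCast_ne_top m)
  exact_mod_cast m0.ne'

end count

section waves

open Pool.Agent.Y139.SW

variable {d : ℕ} {S : Type*} [MeasurableSpace S] {P : Measure S} {τ : E d → S → S}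

/-- finite combinations of waves -/
lemma wave_sum {G : Fin d → S → E d → ℝ} (W : ∀ i, Wave P τ (G i)) (a : Fin d → ℝ) :
    Wave P τ (fun s y => ∑ i, a i * G i s y) := by
  have sm : ∀ s, ∀ i, ContDiff ℝ ∞ fun y => a i * G i s y := fun s i =>
    contDiff_const.mul ((W i).sf.smooth s)
  refine ⟨⟨fun y => ?_, fun s => ?_, fun x s y => ?_⟩, fun s y => ?_, ?_⟩
  · exact Finset.measurable_fun_sum _ fun i _ => ((W i).sf.meas y).const_mul _
  · exact ContDiff.sum fun i _ => sm s i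
  · exact Finset.sum_congr rfl fun i _ => by rw [(W i).sf.cov]
  · have e1 : ∀ (j : Fin d) (f : Fin d → E d → ℝ), (∀ i, ContDiff ℝ ∞ (f i)) →
        D j (fun y => ∑ i, a i * f i y) = fun y => ∑ i, a i * D j (f i) y := by
      intro j f hf
      funext z
      rw [D_sum Finset.univ (fun i => contDiff_const.mul (hf i)) j z]
      refine Finset.sum_congr rfl fun i _ => ?_
      unfold D
      rw [fderiv_const_mul (sdiff (hf i) z)]
      simp
    unfold Lap
    have e2 : ∀ j, D j (D j (fun y => ∑ i, a i * G i s y)) y =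
        ∑ i, a i * D j (D j (G i s)) y := by
      intro j
      rw [e1 j (fun i => G i s) (fun i => (W i).sf.smooth s),
        e1 j (fun i => D j (G i s)) (fun i => D_sm ((W i).sf.smooth s) j)]
    simp only [e2]
    rw [Finset.sum_comm, ← Finset.sum_neg_distrib]
    refine Finset.sum_congr rfl fun i _ => ?_
    rw [← Finset.mul_sum]
    have := (W i).eq s y
    unfold Lap at this
    rw [this]
    ring
  · refine Integrable.mono' (g := fun s => (∑ i, a i ^ 2) * ∑ i, G i s 0 ^ 2) ?_ ?_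
      (ae_of_all _ fun s => ?_)
    · exact (integrable_finsetSum _ fun i _ => (W i).l2).const_mul _
    · exact ((Finset.measurable_fun_sum _ fun i _ =>
        ((W i).sf.meas 0).const_mul _).pow_const 2).aestronglyMeasurable
    · rw [Real.norm_eq_abs, abs_of_nonneg (sq_nonneg _)]
      exact Finset.sum_mul_sq_le_sq_mul_sq _ _ _

/-- the derivative in the direction `e` -/
noncomputable def De (e : E d) (f : E d → ℝ) (y : E d) : ℝ := fderiv ℝ f y e

lemma De_eq (e : E d) (f : E d → ℝ) (y : E d) : De e f y = ∑ i, e i * D i f y := by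
  unfold De D
  have h : e = ∑ i, e i • EuclideanSpace.single i (1 : ℝ) := by
    ext j
    simp [Pi.single_apply]
  conv_lhs => rw [h]
  rw [map_sum]
  simp

lemma wave_De [IsProbabilityMeasure P] (hτ : ∀ x, MeasurePreserving (τ x) P P)
    {G : S → E d → ℝ} (W : Wave P τ G) (e : E d) : Wave P τ (fun s => De e (G s)) := by
  have h := wave_sum (fun i => W.der hτ i) (fun i => e i)
  have : (fun s => De e (G s)) = fun s y => ∑ i, e i * D i (G s) y := by
    funext s y
    exact De_eq e (G s) y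
  rw [this]
  exact h

lemma l2_De [IsProbabilityMeasure P] (hτ : ∀ x, MeasurePreserving (τ x) P P)
    {G : S → E d → ℝ} (W : Wave P τ G) {e : E d} (he : ‖e‖ = 1) :
    ∫ s, De e (G s) 0 ^ 2 ∂P ≤ ∫ s, G s 0 ^ 2 ∂P := by
  rw [← W.energy hτ, ← integral_finsetSum _ fun i _ => (W.der hτ i).l2]
  refine integral_mono (wave_De hτ W e).l2
    (integrable_finsetSum _ fun i _ => (W.der hτ i).l2) fun s => ?_
  simp only [De_eq]
  refine (Finset.sum_mul_sq_le_sq_mul_sq _ _ _).trans (le_of_eq ?_)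
  have : ∑ i, e i ^ 2 = 1 := by
    have := EuclideanSpace.norm_sq_eq e
    rw [he] at this
    simpa using this.symm
  rw [this, one_mul]

/-- the iterated derivatives in the direction `e` -/
noncomputable def It (e : E d) (k : ℕ) (f : E d → ℝ) : E d → ℝ := (De e)^[k] f

lemma It_succ (e : E d) (k : ℕ) (f : E d → ℝ) : It e (k + 1) f = De e (It e k f) := by
  unfold It
  rw [Function.iterate_succ_apply']

lemma wave_It [IsProbabilityMeasure P] (hτ : ∀ x, MeasurePreserving (τ x) P P)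
    {G : S → E d → ℝ} (W : Wave P τ G) {e : E d} (he : ‖e‖ = 1) (k : ℕ) :
    Wave P τ (fun s => It e k (G s)) ∧ ∫ s, It e k (G s) 0 ^ 2 ∂P ≤ ∫ s, G s 0 ^ 2 ∂P := by
  induction k with
  | zero => exact ⟨W, le_rfl⟩
  | succ k ih =>
    simp only [It_succ]
    exact ⟨wave_De hτ ih.1 e, (l2_De hτ ih.1 he).trans ih.2⟩

/-- the chain of a wave on a line -/
lemma chain [IsProbabilityMeasure P] (hτ : ∀ x, MeasurePreserving (τ x) P P)
    {G : S → E d → ℝ} (W : Wave P τ G) {e : E d} (he : ‖e‖ = 1) (p : E d) :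
    Chain P (fun x => τ (x • e)) (fun k s t => It e k (G s) (p + t • e))
      (1 + ∫ s, G s 0 ^ 2 ∂P) := by
  have W1 := fun k => wave_It hτ W he k
  refine ⟨?_, fun x => hτ _, fun k y => (W1 k).1.sf.meas _, fun k s y => ?_,
    fun k x s y => ?_, fun k => ?_⟩
  · have : 0 ≤ ∫ s, G s 0 ^ 2 ∂P := integral_nonneg fun s => sq_nonneg _
    linarith
  · have h1 : HasDerivAt (fun t : ℝ => p + t • e) e y := by
      have := ((hasDerivAt_id y).smul_const e).const_add p
      simpa using this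
    have h2 := (sdiff ((W1 k).1.sf.smooth s) (p + y • e)).hasFDerivAt.comp_hasDerivAt y h1
    rw [It_succ]
    exact h2
  · rw [(W1 k).1.sf.cov]
    congr 1
    rw [add_smul]
    abel
  · simp only [zero_smul, add_zero]
    have st : ∫⁻ s, ‖It e k (G s) p‖ₑ ∂P = ∫⁻ s, ‖It e k (G s) 0‖ₑ ∂P :=
      st_lint hτ (W1 k).1.sf p (k := fun x => ‖x‖ₑ) measurable_enorm
    rw [st]
    have i1 : Integrable (fun s => 1 + It e k (G s) 0 ^ 2) P :=
      (integrable_const _).add (W1 k).1.l2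
    calc ∫⁻ s, ‖It e k (G s) 0‖ₑ ∂P ≤ ∫⁻ s, ENNReal.ofReal (1 + It e k (G s) 0 ^ 2) ∂P := by
          refine lintegral_mono fun s => ?_
          rw [← ofReal_norm, Real.norm_eq_abs]
          refine ENNReal.ofReal_le_ofReal ?_
          rw [← sq_abs]
          nlinarith [sq_nonneg (|It e k (G s) 0| - 1), abs_nonneg (It e k (G s) 0)]
      _ = ENNReal.ofReal (∫ s, (1 + It e k (G s) 0 ^ 2) ∂P) := by
          exact (ofReal_integral_eq_lintegral_ofReal i1
            (ae_of_all _ fun s => by positivity)).symm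
      _ ≤ _ := by
          refine ENNReal.ofReal_le_ofReal ?_
          rw [integral_add (integrable_const _) (W1 k).1.l2]
          have := (W1 k).2
          simpa using this

/-- the theorem for measure preserving maps -/
theorem main [IsProbabilityMeasure P] (hτ : ∀ x, MeasurePreserving (τ x) P P)
    {G : S → E d → ℝ} (W : Wave P τ G) (p v : E d) (c : ℝ) :
    Measurable (num (fun s (t : ℝ) => G s (p + t • v)) c) ∧
    ∫⁻ s in {s | ∃ t : ℝ, G s (p + t • v) ≠ c}, num (fun s (t : ℝ) => G s (p + t • v)) c s ∂P ≤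
      ENNReal.ofReal (‖v‖ / Real.pi) *
        P {s | (∃ t : ℝ, G s (p + t • v) = c) ∧ ∃ t : ℝ, G s (p + t • v) ≠ c} := by
  obtain ⟨f, hf⟩ : ∃ f : S → ℝ → ℝ, f = fun s (t : ℝ) => G s (p + t • v) := ⟨_, rfl⟩
  have ef : ∀ s t, G s (p + t • v) = f s t := fun s t => by rw [hf]
  have mf : ∀ y, Measurable fun s => f s y := fun y => by rw [hf]; exact W.sf.meas _
  have cf : ∀ s, Continuous (f s) := fun s => by
    rw [hf]
    exact (W.sf.smooth s).continuous.comp (by fun_prop)
  simp only [ef]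
  refine ⟨num_meas mf cf c, ?_⟩
  obtain ⟨B, hB⟩ : ∃ B, B = {s | (∃ t : ℝ, f s t = c) ∧ ∃ t : ℝ, f s t ≠ c} := ⟨_, rfl⟩
  have mB : MeasurableSet B := by
    rw [hB]; exact (meas_ex mf cf c).inter (meas_ne mf cf c)
  rw [← hB]
  have le : ∫⁻ s in {s | ∃ t : ℝ, f s t ≠ c}, num f c s ∂P ≤ ∫⁻ s in B, num f c s ∂P := by
    rw [← lintegral_indicator (meas_ne mf cf c), ← lintegral_indicator mB]
    refine lintegral_mono fun s => ?_
    by_cases h1 : s ∈ B
    · have h2 : s ∈ {s | ∃ t : ℝ, f s t ≠ c} := by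
        rw [hB] at h1
        exact h1.2
      simp [Set.indicator_of_mem h1, Set.indicator_of_mem h2]
    · rw [Set.indicator_of_notMem h1]
      by_cases h2 : s ∈ {s | ∃ t : ℝ, f s t ≠ c}
      · rw [Set.indicator_of_mem h2]
        have : {t : ℝ | t ∈ Set.Ico 0 1 ∧ f s t = c} = ∅ := by
          ext t
          simp only [Set.mem_ofPred_eq, Set.mem_empty_iff_false, iff_false, not_and]
          intro _ h3
          exact h1 (by rw [hB]; exact ⟨⟨t, h3⟩, h2⟩)
        unfold num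
        rw [this]
        simp
      · rw [Set.indicator_of_notMem h2]
  refine le.trans ?_
  rcases eq_or_ne v 0 with rfl | hv
  · have : B = ∅ := by
      rw [hB]
      ext s
      simp only [hf, smul_zero, Set.mem_ofPred_eq, Set.mem_empty_iff_false, iff_false]
      rintro ⟨⟨_, h1⟩, ⟨_, h2⟩⟩
      exact h2 h1
    rw [this]
    simp
  have v0 : 0 < ‖v‖ := norm_pos_iff.2 hv
  obtain ⟨e, he⟩ : ∃ e, e = ‖v‖⁻¹ • v := ⟨_, rfl⟩
  have e1 : ‖e‖ = 1 := by
    rw [he, norm_smul, norm_inv, norm_norm, inv_mul_cancel₀ v0.ne']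
  have ve : v = ‖v‖ • e := by
    rw [he, smul_smul, mul_inv_cancel₀ v0.ne', one_smul]
  obtain ⟨g, hg⟩ : ∃ g : ℕ → S → ℝ → ℝ, g = fun k s t => It e k (G s) (p + t • e) := ⟨_, rfl⟩
  obtain ⟨T, hT⟩ : ∃ T : ℝ → S → S, T = fun x => τ (x • e) := ⟨_, rfl⟩
  have H : Chain P T g (1 + ∫ s, G s 0 ^ 2 ∂P) := by
    rw [hg, hT]
    exact chain hτ W e1 p
  have g0 : ∀ s t, g 0 s (t * ‖v‖) = f s t := by
    intro s t
    rw [hg]
    show G s (p + (t * ‖v‖) • e) = f s t
    rw [mul_smul, ← ve, ef]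
  have g1 : ∀ s t, g 0 s t = f s (t / ‖v‖) := by
    intro s t
    rw [← g0, div_mul_cancel₀ t v0.ne']
  have hitv : ∀ a b : ℝ, Hit f c a b = Hit (g 0) c (a * ‖v‖) (b * ‖v‖) := by
    intro a b
    ext s
    unfold Hit
    simp only [Set.mem_ofPred_eq]
    constructor
    · rintro ⟨t, ⟨h1, h2⟩, h3⟩
      exact ⟨t * ‖v‖, ⟨by gcongr, by gcongr⟩, by rw [g0]; exact h3⟩
    · rintro ⟨t, ⟨h1, h2⟩, h3⟩
      rw [g1] at h3
      exact ⟨t / ‖v‖, ⟨by rwa [le_div_iff₀ v0], by rwa [div_lt_iff₀ v0]⟩, h3⟩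
  have exv : ∀ q : ℝ → Prop, ∀ s, (∃ t, q (f s t)) ↔ ∃ t, q (g 0 s t) := by
    intro q s
    constructor
    · rintro ⟨t, h⟩
      exact ⟨t * ‖v‖, by rw [g0]; exact h⟩
    · rintro ⟨t, h⟩
      rw [g1] at h
      exact ⟨t / ‖v‖, h⟩
  have hB2 : ∀ s, s ∈ B ↔ (∃ t, g 0 s t = c) ∧ ∃ t, g 0 s t ≠ c := by
    intro s
    rw [hB]
    exact and_congr (exv (fun x => x = c) s) (exv (fun x => x ≠ c) s)
  have shex : ∀ (q : ℝ → Prop) (x : ℝ) (s : S),
      (∃ t, q (g 0 (T x s) t)) ↔ ∃ t, q (g 0 s t) := by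
    intro q x s
    constructor
    · rintro ⟨t, h⟩
      rw [H.cov] at h
      exact ⟨_, h⟩
    · rintro ⟨t, h⟩
      refine ⟨t - x, ?_⟩
      rw [H.cov, sub_add_cancel]
      exact h
  have iB : ∀ x : ℝ, T x ⁻¹' B = B := by
    intro x
    ext s
    rw [Set.mem_preimage, hB2, hB2]
    exact and_congr (shex (fun y => y = c) x s) (shex (fun y => y ≠ c) x s)
  refine num_int mf cf c _ fun m m0 k => ?_
  have m0' : (0 : ℝ) < m := by exact_mod_cast m0
  rw [hitv]
  have e2 : (k : ℝ) / m * ‖v‖ = 0 + (k : ℝ) / m * ‖v‖ := by ring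
  have e3 : ((k : ℝ) + 1) / m * ‖v‖ = ‖v‖ / m + (k : ℝ) / m * ‖v‖ := by ring
  have e4 := H.hit_eq mB iB c 0 (‖v‖ / m) ((k : ℝ) / m * ‖v‖)
  rw [← e2, ← e3] at e4
  rw [e4]
  have key := H.cell mB iB (c := c) (fun s hs => ((hB2 s).1 hs).2) (h := ‖v‖ / m) (by positivity)
  rw [← ofReal_measureReal (measure_ne_top _ _)]
  refine (ENNReal.ofReal_le_ofReal key).trans (le_of_eq ?_)
  rw [← ofReal_measureReal (s := B) (measure_ne_top _ _), ← ENNReal.ofReal_mul (by positivity),
    ← ENNReal.ofReal_natCast, ← ENNReal.ofReal_div_of_pos m0']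
  congr 1
  ring

end waves

end Pool.Agent.K6.H16.LC
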